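import Pool.Agent.P.MP_c77070_an.L.Defs

noncomputable section

namespace Pool.Agent.P.MP_c77070_an.Lor

open Filter Topology Finset
open scoped Classical ENNReal

namespace EXA

variable {𝕜 : Type} [RCLike 𝕜] {w : ℕ → ℝ}

/-- The ambient space. -/
abbrev W (𝕜 : Type) [RCLike 𝕜] : Type := lp (fun _ : Equiv.Perm ℕ => lp (fun _ : ℕ => 𝕜) 2) ∞

/-- The basis vectors. -/
def e (𝕜 : Type) [RCLike 𝕜] (hw : Wt w) (i : ℕ) : W 𝕜 :=
  ⟨fun π => lp.single 2 i ((√(w (π i)) : ℝ) : 𝕜), memℓp_infty ⟨1, by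
    rintro _ ⟨π, rfl⟩
    simp only [lp.norm_single (p := 2) (by norm_num), RCLike.norm_ofReal,
      abs_of_nonneg (Real.sqrt_nonneg _)]
    exact Real.sqrt_le_one.2 (hw.zero ▸ hw.anti (Nat.zero_le _))⟩⟩

theorem comp (hw : Wt w) (s : Finset ℕ) (a : ℕ → 𝕜) (π : Equiv.Perm ℕ) :
    ‖(∑ i ∈ s, a i • e 𝕜 hw i) π‖ ^ 2 = ∑ i ∈ s, w (π i) * ‖a i‖ ^ 2 := by
  have h1 : (∑ i ∈ s, a i • e 𝕜 hw i) π =
      ∑ i ∈ s, lp.single 2 i (a i • ((√(w (π i)) : ℝ) : 𝕜)) := by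
    rw [lp.coeFn_sum, Finset.sum_apply]
    exact Finset.sum_congr rfl fun i _ => (lp.single_smul (E := fun _ : ℕ => 𝕜) 2 i (a i) _).symm
  have h2 := lp.norm_sum_single (E := fun _ : ℕ => 𝕜) (p := 2) (by norm_num)
    (fun i => a i • ((√(w (π i)) : ℝ) : 𝕜)) s
  simp only [ENNReal.toReal_ofNat, Real.rpow_ofNat] at h2
  rw [h1, h2]
  refine Finset.sum_congr rfl fun i _ => ?_
  rw [norm_smul, mul_pow, RCLike.norm_ofReal, sq_abs, Real.sq_sqrt (hw.pos _).le, mul_comm]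

theorem lub (hw : Wt w) (s : Finset ℕ) (a : ℕ → 𝕜) :
    IsLUB (Set.range fun π : Equiv.Perm ℕ => ∑ i ∈ s, w (π i) * ‖a i‖ ^ 2)
      (‖∑ i ∈ s, a i • e 𝕜 hw i‖ ^ 2) := by
  simp only [← comp hw]
  refine ⟨?_, fun B hB => ?_⟩
  · rintro _ ⟨π, rfl⟩
    exact pow_le_pow_left₀ (norm_nonneg _) (lp.norm_apply_le_norm ENNReal.top_ne_zero _ π) 2
  · have h0 : 0 ≤ B := (sq_nonneg _).trans (hB ⟨1, rfl⟩)
    exact (Real.le_sqrt (norm_nonneg _) h0).1 (lp.norm_le_of_forall_le (Real.sqrt_nonneg _)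
      fun π => (Real.le_sqrt (norm_nonneg _) h0).2 (hB ⟨π, rfl⟩))

theorem mono (hw : Wt w) {s t : Finset ℕ} (h : s ⊆ t) (a : ℕ → 𝕜) :
    ‖∑ i ∈ s, a i • e 𝕜 hw i‖ ≤ ‖∑ i ∈ t, a i • e 𝕜 hw i‖ := by
  refine (pow_le_pow_iff_left₀ (norm_nonneg _) (norm_nonneg _) two_ne_zero).1
    ((lub hw s a).2 ?_)
  rintro _ ⟨π, rfl⟩
  exact (Finset.sum_le_sum_of_subset_of_nonneg h fun i _ _ =>
    mul_nonneg (hw.pos _).le (sq_nonneg _)).trans ((lub hw t a).1 ⟨π, rfl⟩)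

/-- The coordinate functionals. -/
def c (𝕜 : Type) [RCLike 𝕜] (i : ℕ) : W 𝕜 →L[𝕜] 𝕜 :=
  (lp.evalCLM 𝕜 (fun _ : ℕ => 𝕜) 2 i).comp
    (lp.evalCLM 𝕜 (fun _ : Equiv.Perm ℕ => lp (fun _ : ℕ => 𝕜) 2) ∞ (Equiv.swap 0 i))

theorem c_e (hw : Wt w) (i j : ℕ) : c 𝕜 i (e 𝕜 hw j) = (Pi.single j (1 : 𝕜) : ℕ → 𝕜) i := by
  change (lp.single (E := fun _ : ℕ => 𝕜) 2 j ((√(w (Equiv.swap 0 i j)) : ℝ) : 𝕜)) i = _
  rw [lp.single_apply]
  by_cases h : i = j
  · subst h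
    simp [hw.zero]
  · simp [h]

/-- The partial sum operators. -/
def Pr (𝕜 : Type) [RCLike 𝕜] (hw : Wt w) (n : ℕ) : W 𝕜 →L[𝕜] W 𝕜 :=
  ∑ i ∈ range n, (c 𝕜 i).smulRight (e 𝕜 hw i)

theorem P_apply (hw : Wt w) (n : ℕ) (x : W 𝕜) :
    Pr 𝕜 hw n x = ∑ i ∈ range n, c 𝕜 i x • e 𝕜 hw i := by
  simp [Pr]

theorem P_span (hw : Wt w) {x : W 𝕜} (hx : x ∈ Submodule.span 𝕜 (Set.range (e 𝕜 hw))) :
    ∃ m, ∀ n, m ≤ n → Pr 𝕜 hw n x = x := by
  induction hx using Submodule.span_induction with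
  | mem x hx =>
    obtain ⟨j, rfl⟩ := hx
    refine ⟨j + 1, fun n hn => ?_⟩
    rw [P_apply, Finset.sum_eq_single j]
    · simp [c_e]
    · intro i _ h
      simp [c_e, h]
    · intro h
      exact absurd (Finset.mem_range.2 (by omega)) h
  | zero => exact ⟨0, fun n _ => map_zero _⟩
  | add x y _ _ h1 h2 =>
    obtain ⟨m, hm⟩ := h1
    obtain ⟨k, hk⟩ := h2
    exact ⟨max m k, fun n hn => by
      rw [map_add, hm n (le_of_max_le_left hn), hk n (le_of_max_le_right hn)]⟩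
  | smul a x _ h1 =>
    obtain ⟨m, hm⟩ := h1
    exact ⟨m, fun n hn => by rw [map_smul, hm n hn]⟩

theorem P_le (hw : Wt w) (n : ℕ) {x : W 𝕜}
    (hx : x ∈ (Submodule.span 𝕜 (Set.range (e 𝕜 hw))).topologicalClosure) :
    ‖Pr 𝕜 hw n x‖ ≤ ‖x‖ := by
  refine closure_minimal (t := {x | ‖Pr 𝕜 hw n x‖ ≤ ‖x‖}) (fun y hy => ?_)
    (isClosed_le (by fun_prop) (by fun_prop)) hx
  obtain ⟨m, hm⟩ := P_span hw hy
  have := mono hw (Finset.range_mono (le_max_right m n)) fun i => c 𝕜 i y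
  rwa [← P_apply, ← P_apply, hm _ (le_max_left m n)] at this

theorem P_tendsto (hw : Wt w) {x : W 𝕜}
    (hx : x ∈ (Submodule.span 𝕜 (Set.range (e 𝕜 hw))).topologicalClosure) :
    Tendsto (fun n => Pr 𝕜 hw n x) atTop (𝓝 x) := by
  refine Metric.tendsto_atTop.2 fun ε hε => ?_
  obtain ⟨y, hy, h1⟩ := Metric.mem_closure_iff.1 hx (ε / 2) (by positivity)
  obtain ⟨m, hm⟩ := P_span hw hy
  refine ⟨m, fun n hn => ?_⟩
  have h2 := P_le hw n (sub_mem hx (Submodule.le_topologicalClosure _ hy))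
  rw [map_sub, hm n hn, ← dist_eq_norm, ← dist_eq_norm] at h2
  linarith [dist_triangle_right (Pr 𝕜 hw n x) x y]

end EXA

open EXA in
theorem ex (𝕜 : Type) [RCLike 𝕜] : S_Ex 𝕜 := fun w hw => by
  let X := (Submodule.span 𝕜 (Set.range (e 𝕜 hw))).topologicalClosure
  have h0 : ∀ i, e 𝕜 hw i ∈ X := fun i =>
    Submodule.le_topologicalClosure _ (Submodule.subset_span ⟨i, rfl⟩)
  refine ⟨X, inferInstance, inferInstance,
    (Submodule.isClosed_topologicalClosure _).completeSpace_coe,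
    ⟨fun i => ⟨_, h0 i⟩, fun i => (c 𝕜 i).comp X.subtypeL,
      fun i j => (c_e (𝕜 := 𝕜) hw i j).trans (by congr), fun x => ?_⟩, fun s a => ?_⟩
  · rw [HasSum, SummationFilter.conditional_filter_eq_map_range, tendsto_map'_iff,
      tendsto_subtype_rng]
    refine (P_tendsto hw x.2).congr fun n => ?_
    simp [P_apply]
  · convert lub hw s a using 2
    rw [Submodule.coe_norm, Submodule.coe_sum]
    rfl

end Pool.Agent.P.MP_c77070_an.Lor

end

/-! Block SYM: a Lorentz basis is symmetric. -/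

noncomputable section

namespace Pool.Agent.P.MP_c77070_an.Lor

open Filter Topology Finset
open scoped Classical

namespace SYMA

variable {𝕜 : Type} [RCLike 𝕜] {X : Type} [NormedAddCommGroup X] [NormedSpace 𝕜 X]
  {w : ℕ → ℝ} {b : SchauderBasis 𝕜 X}

theorem norm_perm (h : IsLor w b) (π : Equiv.Perm ℕ) (s : Finset ℕ) (a : ℕ → 𝕜) :
    ‖∑ i ∈ s, a i • b (π i)‖ = ‖∑ i ∈ s, a i • b i‖ := by
  have h1 := h (s.map π.toEmbedding) fun j => a (π.symm j)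
  simp only [sum_map, Equiv.coe_toEmbedding, Equiv.symm_apply_apply] at h1
  have h2 : (Set.range fun σ : Equiv.Perm ℕ => ∑ i ∈ s, w (σ (π i)) * ‖a i‖ ^ 2) =
      Set.range fun σ : Equiv.Perm ℕ => ∑ i ∈ s, w (σ i) * ‖a i‖ ^ 2 :=
    (Equiv.mulRight π).surjective.range_comp fun σ : Equiv.Perm ℕ => ∑ i ∈ s, w (σ i) * ‖a i‖ ^ 2
  rw [h2] at h1
  exact (sq_eq_sq₀ (norm_nonneg _) (norm_nonneg _)).1 (h1.unique (h s a))

theorem dense (b : SchauderBasis 𝕜 X) : DenseRange (Finsupp.linearCombination 𝕜 b) := fun x =>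
  mem_closure_of_tendsto (b.tendsto_proj x) (Eventually.of_forall fun n => by
    rw [SchauderBasis.proj_apply]
    exact (LinearMap.range (Finsupp.linearCombination 𝕜 b)).sum_mem fun i _ =>
      ⟨Finsupp.single i (b.coord i x), Finsupp.linearCombination_single _ _ _⟩)

end SYMA

theorem sym (𝕜 : Type) [RCLike 𝕜] : S_Sym 𝕜 := by
  intro X _ _ _ w b h π
  obtain ⟨e, he⟩ : ∃ e : (ℕ →₀ 𝕜) →ₗ[𝕜] X, e = Finsupp.linearCombination 𝕜 b := ⟨_, rfl⟩
  obtain ⟨f, hf⟩ : ∃ f : (ℕ →₀ 𝕜) ≃ₗ[𝕜] (ℕ →₀ 𝕜), f = Finsupp.domLCongr π := ⟨_, rfl⟩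
  have h0 : DenseRange e := he ▸ SYMA.dense b
  have h1 : ∀ x, ‖e (f x)‖ = ‖e x‖ := fun x => by
    rw [he, hf, Finsupp.domLCongr_apply, Finsupp.domCongr_apply,
      Finsupp.linearCombination_equivMapDomain]
    exact SYMA.norm_perm h π x.support x
  have h2 : ∀ n, e (Finsupp.single n 1) = b n := fun n => by
    rw [he, Finsupp.linearCombination_single, one_smul]
  obtain ⟨T, hT⟩ : ∃ T : X ≃ₗᵢ[𝕜] X, ∀ x, T (e x) = e (f x) :=
    ⟨f.extendOfIsometry e e h0 h0 h1, f.extendOfIsometry_eq e e h0 h0 h1⟩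
  refine ⟨T.toContinuousLinearEquiv, fun n => ?_⟩
  rw [LinearIsometryEquiv.coe_toContinuousLinearEquiv, ← h2, hT, hf, Finsupp.domLCongr_single, h2]

end Pool.Agent.P.MP_c77070_an.Lor

end

/-! Block LF: elementary norm facts of a Lorentz basis. -/

noncomputable section

namespace Pool.Agent.P.MP_c77070_an.Lor

open Filter Topology Finset
open scoped Classical

namespace LFA

variable {𝕜 : Type} [RCLike 𝕜] {X : Type} [NormedAddCommGroup X] [NormedSpace 𝕜 X]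
  {w : ℕ → ℝ} {b : SchauderBasis 𝕜 X}

lemma upper (h : IsLor w b) (s : Finset ℕ) (a : ℕ → 𝕜) (B : ℝ)
    (hB : ∀ π : Equiv.Perm ℕ, ∑ i ∈ s, w (π i) * ‖a i‖ ^ 2 ≤ B) :
    ‖∑ i ∈ s, a i • b i‖ ^ 2 ≤ B :=
  (h s a).2 (by rintro _ ⟨π, rfl⟩; exact hB π)

lemma lower_perm (hw : Wt w) (h : IsLor w b) (x : X) (s : Finset ℕ) (π : Equiv.Perm ℕ) :
    ∑ i ∈ s, w (π i) * ‖b.coord i x‖ ^ 2 ≤ ‖x‖ ^ 2 := by
  have ht : Tendsto (fun n => ‖b.proj n x‖ ^ 2) atTop (𝓝 (‖x‖ ^ 2)) :=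
    (b.tendsto_proj x).norm.pow 2
  refine ge_of_tendsto ht ?_
  filter_upwards [eventually_gt_atTop (s.sup id)] with n hn
  have h1 := (h (range n) fun i => b.coord i x).1 ⟨π, rfl⟩
  rw [SchauderBasis.proj_apply]
  refine le_trans (sum_le_sum_of_subset_of_nonneg (fun i hi => ?_) fun i _ _ => ?_) h1
  · exact mem_range.2 (lt_of_le_of_lt (le_sup (f := id) hi) hn)
  · exact mul_nonneg (hw.pos _).le (sq_nonneg _)

lemma lower (hw : Wt w) (h : IsLor w b) (x : X) (s : Finset ℕ) (σ : ℕ → ℕ)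
    (hσ : Set.InjOn σ (s : Set ℕ)) : ∑ i ∈ s, w (σ i) * ‖b.coord i x‖ ^ 2 ≤ ‖x‖ ^ 2 := by
  obtain ⟨π, hπ⟩ := Equiv.Perm.exists_extending_pair (fun i : s => (i : ℕ))
    (fun i : s => σ i) Subtype.val_injective
    (fun i j hij => Subtype.ext (hσ i.2 j.2 hij))
  refine le_of_eq_of_le (sum_congr rfl fun i hi => ?_) (lower_perm hw h x s π)
  rw [hπ ⟨i, hi⟩]

lemma unc (hw : Wt w) (h : IsLor w b) (g : StrongDual 𝕜 X) (x : X) (s : Finset ℕ) :
    ∑ i ∈ s, ‖g (b i)‖ * ‖b.coord i x‖ ≤ ‖g‖ * ‖x‖ := by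
  choose θ hθ hθ' using fun i => RCLike.exists_norm_eq_mul_self (b.coord i x * g (b i))
  set z : X := ∑ i ∈ s, (θ i * b.coord i x) • b i with hz
  have h1 : ‖z‖ ^ 2 ≤ ‖x‖ ^ 2 := by
    refine upper h s _ _ fun π => le_of_eq_of_le (sum_congr rfl fun i _ => ?_)
      (lower_perm hw h x s π)
    rw [norm_mul, hθ, one_mul]
  have h2 : ‖z‖ ≤ ‖x‖ := le_of_sq_le_sq h1 (norm_nonneg _)
  have h3 : g z = ((∑ i ∈ s, ‖g (b i)‖ * ‖b.coord i x‖ : ℝ) : 𝕜) := by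
    rw [hz, map_sum, RCLike.ofReal_sum]
    refine sum_congr rfl fun i _ => ?_
    rw [map_smul, smul_eq_mul, mul_assoc, ← hθ', norm_mul, mul_comm]
  have h4 : ‖g z‖ = ∑ i ∈ s, ‖g (b i)‖ * ‖b.coord i x‖ := by
    rw [h3, RCLike.norm_ofReal, abs_of_nonneg (sum_nonneg fun i _ => by positivity)]
  rw [← h4]
  exact (g.le_opNorm z).trans (mul_le_mul_of_nonneg_left h2 (norm_nonneg _))

lemma split_nat (hw : Wt w) (h : IsLor w b) (s : Finset ℕ) (a : ℕ → 𝕜) (K : ℕ) (S : ℝ)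
    (hS : ∀ i ∈ s, ‖a i‖ ≤ S) :
    ‖∑ i ∈ s, a i • b i‖ ^ 2 ≤ K * S ^ 2 + w K * ∑ i ∈ s, ‖a i‖ ^ 2 := by
  refine upper h s a _ fun π => ?_
  rw [← sum_filter_add_sum_filter_not s fun i => π i < K]
  refine add_le_add ?_ ?_
  · have hc : (s.filter fun i => π i < K).card ≤ K := by
      refine le_of_le_of_eq (card_le_card_of_injOn π (fun i hi => ?_) π.injective.injOn)
        (card_range K)
      exact mem_coe.2 (mem_range.2 (mem_filter.1 (mem_coe.1 hi)).2)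
    refine (sum_le_card_nsmul _ _ (S ^ 2) fun i hi => ?_).trans ?_
    · have h1 : w (π i) ≤ 1 := hw.zero ▸ hw.anti (Nat.zero_le _)
      have h2 : ‖a i‖ ^ 2 ≤ S ^ 2 :=
        pow_le_pow_left₀ (norm_nonneg _) (hS i (mem_filter.1 hi).1) 2
      exact (mul_le_of_le_one_left (sq_nonneg _) h1).trans h2
    · rw [nsmul_eq_mul]
      exact mul_le_mul_of_nonneg_right (by exact_mod_cast hc) (sq_nonneg _)
  · rw [mul_sum]
    refine le_trans (sum_le_sum fun i hi => ?_)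
      (sum_le_sum_of_subset_of_nonneg (filter_subset (fun i => ¬ π i < K) s) fun i _ _ =>
        mul_nonneg (hw.pos K).le (sq_nonneg _))
    exact mul_le_mul_of_nonneg_right (hw.anti (not_lt.1 (mem_filter.1 hi).2)) (sq_nonneg _)

lemma split (hw : Wt w) (h : IsLor w b) (ι : Type) (s : Finset ι) (en : ι → ℕ) (a : ι → 𝕜)
    (K : ℕ) (S : ℝ) (hen : Set.InjOn en (s : Set ι)) (hS : ∀ i ∈ s, ‖a i‖ ≤ S) :
    ‖∑ i ∈ s, a i • b (en i)‖ ^ 2 ≤ K * S ^ 2 + w K * ∑ i ∈ s, ‖a i‖ ^ 2 := by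
  let a' : ℕ → 𝕜 := fun n => ∑ i ∈ s, if en i = n then a i else 0
  have ha : ∀ i ∈ s, a' (en i) = a i := fun i hi => by
    refine (sum_eq_single_of_mem i hi fun j hj hji => ?_).trans (if_pos rfl)
    exact if_neg fun e => hji (hen hj hi e)
  have h1 := split_nat hw h (s.image en) a' K S fun n hn => by
    obtain ⟨i, hi, rfl⟩ := mem_image.1 hn
    rw [ha i hi]
    exact hS i hi
  rw [sum_image hen, sum_image hen] at h1
  have e1 : ∑ i ∈ s, a' (en i) • b (en i) = ∑ i ∈ s, a i • b (en i) :=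
    sum_congr rfl fun i hi => by rw [ha i hi]
  have e2 : ∑ i ∈ s, ‖a' (en i)‖ ^ 2 = ∑ i ∈ s, ‖a i‖ ^ 2 :=
    sum_congr rfl fun i hi => by rw [ha i hi]
  rwa [e1, e2] at h1

lemma norm_coord_le (hw : Wt w) (h : IsLor w b) (i : ℕ) (x : X) : ‖b.coord i x‖ ≤ ‖x‖ := by
  have h1 := lower hw h x {i} (fun _ => 0) (by simp)
  rw [sum_singleton, hw.zero, one_mul] at h1
  exact le_of_sq_le_sq h1 (norm_nonneg _)

lemma norm_b (hw : Wt w) (h : IsLor w b) (i : ℕ) : ‖b i‖ = 1 := by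
  refine le_antisymm ?_ ?_
  · have h1 := upper h {i} (fun _ => (1 : 𝕜)) (1 ^ 2) fun π => by
      rw [sum_singleton, norm_one, one_pow, mul_one]
      exact hw.zero ▸ hw.anti (Nat.zero_le _)
    rw [sum_singleton, one_smul] at h1
    exact le_of_sq_le_sq h1 zero_le_one
  · have h1 := norm_coord_le hw h i (b i)
    have h2 : b.coord i (b i) = 1 := by simp [b.ortho]
    rwa [h2, norm_one] at h1

end LFA

theorem lf (𝕜 : Type) [RCLike 𝕜] : S_LF 𝕜 := fun _ _ _ _ _ hw h =>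
  { lower := LFA.lower hw h
    upper := LFA.upper h
    unc := LFA.unc hw h
    split := LFA.split hw h
    norm_b := LFA.norm_b hw h
    norm_coord := fun i => ContinuousLinearMap.opNorm_le_bound _ zero_le_one fun x => by
      rw [one_mul]
      exact LFA.norm_coord_le hw h i x }

end Pool.Agent.P.MP_c77070_an.Lor

end

/-! Block NL: the Lorentz space is not isomorphic to an inner product space. -/

noncomputable section

namespace Pool.Agent.P.MP_c77070_an.Lor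

open Filter Topology Finset

namespace NLA

theorem signs {𝕜 : Type} [RCLike 𝕜] {H : Type} [NormedAddCommGroup H] [InnerProductSpace 𝕜 H]
    (v : ℕ → H) (n : ℕ) : ∃ ε : ℕ → 𝕜, (∀ i, ‖ε i‖ ≤ 1) ∧
      ∑ i ∈ range n, ‖v i‖ ^ 2 ≤ ‖∑ i ∈ range n, ε i • v i‖ ^ 2 := by
  induction n with
  | zero => exact ⟨0, by simp, by simp⟩
  | succ n ih =>
    obtain ⟨ε, h1, h2⟩ := ih
    have key : ∀ c : 𝕜, ‖c‖ ≤ 1 → ‖∑ i ∈ range n, ε i • v i‖ ^ 2 + ‖v n‖ ^ 2 ≤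
        ‖∑ i ∈ range n, ε i • v i + c • v n‖ ^ 2 → ∃ ε : ℕ → 𝕜, (∀ i, ‖ε i‖ ≤ 1) ∧
        ∑ i ∈ range (n + 1), ‖v i‖ ^ 2 ≤ ‖∑ i ∈ range (n + 1), ε i • v i‖ ^ 2 := by
      intro c hc h
      refine ⟨fun i => if i = n then c else ε i, fun i => ?_, ?_⟩
      · beta_reduce
        split_ifs
        exacts [hc, h1 i]
      · have e : ∑ i ∈ range n, (if i = n then c else ε i) • v i = ∑ i ∈ range n, ε i • v i :=
          sum_congr rfl fun i hi => by rw [if_neg (mem_range.1 hi).ne]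
        beta_reduce
        rw [sum_range_succ, sum_range_succ, if_pos rfl, e]
        linarith
    have hp := parallelogram_law_with_norm 𝕜 (∑ i ∈ range n, ε i • v i) (v n)
    by_cases h : ‖∑ i ∈ range n, ε i • v i‖ ^ 2 + ‖v n‖ ^ 2 ≤
        ‖∑ i ∈ range n, ε i • v i + v n‖ ^ 2
    · exact key 1 (by simp) (by rwa [one_smul])
    · refine key (-1) (by simp) ?_
      rw [neg_one_smul, ← sub_eq_add_neg]
      nlinarith

end NLA

theorem nl (𝕜 : Type) [RCLike 𝕜] : S_NL 𝕜 := by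
  intro X _ _ w b hw hb h0 H _ _
  refine ⟨fun T => ?_⟩
  set A := ‖(T.symm : H →L[𝕜] X)‖
  set B := ‖(T : X →L[𝕜] H)‖
  have hA : 0 ≤ A := norm_nonneg _
  have hB : 0 ≤ B := norm_nonneg _
  have h1 : Tendsto (fun K => A ^ 2 * B ^ 2 * w K) atTop (𝓝 0) := by
    simpa using h0.const_mul (A ^ 2 * B ^ 2)
  obtain ⟨K, hK⟩ := (h1.eventually_lt_const (show (0 : ℝ) < 1 / 2 by norm_num)).exists
  obtain ⟨n, hn⟩ := exists_nat_gt (2 * (A ^ 2 * B ^ 2 * K))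
  obtain ⟨ε, e1, e2⟩ := NLA.signs (𝕜 := 𝕜) (fun i => T (b i)) n
  have h2 : (n : ℝ) ≤ A ^ 2 * ∑ i ∈ range n, ‖T (b i)‖ ^ 2 := by
    rw [mul_sum]
    refine le_trans (by simp) (sum_le_sum (f := fun _ => (1 : ℝ)) fun i _ => ?_)
    have := (T.symm : H →L[𝕜] X).le_opNorm (T (b i))
    simp only [ContinuousLinearEquiv.coe_coe, ContinuousLinearEquiv.symm_apply_apply,
      hb.norm_b] at this
    rw [← mul_pow]
    exact one_le_pow₀ this
  have h3 : ‖∑ i ∈ range n, ε i • T (b i)‖ ≤ B * ‖∑ i ∈ range n, ε i • b i‖ := by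
    have := (T : X →L[𝕜] H).le_opNorm (∑ i ∈ range n, ε i • b i)
    simpa only [ContinuousLinearEquiv.coe_coe, map_sum, map_smul] using this
  have h4 := hb.split ℕ (range n) id ε K 1 (Set.injOn_id _) fun i _ => e1 i
  have h5 : ∑ i ∈ range n, ‖ε i‖ ^ 2 ≤ n :=
    (sum_le_sum (g := fun _ => (1 : ℝ)) fun i _ => pow_le_one₀ (norm_nonneg _) (e1 i)).trans
      (by simp)
  have h6 : ‖∑ i ∈ range n, ε i • b i‖ ^ 2 ≤ K + w K * n := by
    have := mul_le_mul_of_nonneg_left h5 (hw.pos K).le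
    simp only [id] at h4
    linarith
  have h7 : (n : ℝ) ≤ A ^ 2 * (B ^ 2 * (K + w K * n)) := by
    refine h2.trans (mul_le_mul_of_nonneg_left (e2.trans ?_) (by positivity))
    refine (pow_le_pow_left₀ (norm_nonneg _) h3 2).trans ?_
    rw [mul_pow]
    exact mul_le_mul_of_nonneg_left h6 (by positivity)
  have h8 : A ^ 2 * B ^ 2 * w K * n ≤ 1 / 2 * n :=
    mul_le_mul_of_nonneg_right hK.le (Nat.cast_nonneg n)
  nlinarith

end Pool.Agent.P.MP_c77070_an.Lor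

end

noncomputable section

namespace Pool.Agent.P.MP_c77070_an.Lor

open Filter Topology Finset
open scoped Classical

namespace JA

theorem rank (a : ℕ → ℕ) (s : Finset ℕ) : ∃ σ : ℕ → ℕ, Set.InjOn σ (s : Set ℕ) ∧
    ∀ i, σ i ≤ (s.filter fun i' => a i' ≤ a i).card := by
  refine ⟨fun i => (s.filter fun i' => toLex (a i', i') < toLex (a i, i)).card, ?_, fun i => ?_⟩
  · have key : ∀ i ∈ s, ∀ j, toLex (a i, i) < toLex (a j, j) →
        (s.filter fun i' => toLex (a i', i') < toLex (a i, i)).card <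
          (s.filter fun i' => toLex (a i', i') < toLex (a j, j)).card := fun i hi j h =>
      card_lt_card ⟨fun k hk => mem_filter.2 ⟨(mem_filter.1 hk).1, (mem_filter.1 hk).2.trans h⟩,
        fun h' => lt_irrefl _ (mem_filter.1 (h' (mem_filter.2 ⟨hi, h⟩))).2⟩
    intro i hi j hj e
    rcases lt_trichotomy (toLex (a i, i)) (toLex (a j, j)) with h | h | h
    · exact absurd e (key i hi j h).ne
    · exact congrArg (fun p => (ofLex p).2) h
    · exact absurd e (key j hj i h).ne'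
  · refine card_le_card fun k hk => mem_filter.2 ⟨(mem_filter.1 hk).1, ?_⟩
    rcases Prod.Lex.toLex_lt_toLex.1 (mem_filter.1 hk).2 with h | h
    · exact h.le
    · exact h.1.le

end JA

theorem jmap (𝕜 : Type) [RCLike 𝕜] : S_J 𝕜 := by
  intro X _ _ w b hw hb a ha
  let v : X → ℕ → 𝕜 := fun x i => ((√(w (N (a i + 1))) : ℝ) : 𝕜) * b.coord i x
  have hs : ∀ x (s : Finset ℕ), ∑ i ∈ s, ‖v x i‖ ^ (2 : ENNReal).toReal ≤
      ‖x‖ ^ (2 : ENNReal).toReal := fun x s => by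
    obtain ⟨σ, h1, h2⟩ := JA.rank a s
    simp only [ENNReal.toReal_ofNat, Real.rpow_ofNat]
    refine le_trans (sum_le_sum fun i _ => ?_) (hb.lower x s σ h1)
    rw [norm_mul, mul_pow, RCLike.norm_ofReal, sq_abs, Real.sq_sqrt (hw.pos _).le]
    exact mul_le_mul_of_nonneg_right (hw.anti ((h2 i).trans (ha _ s))) (sq_nonneg _)
  let J0 : X →ₗ[𝕜] lp (fun _ : ℕ => 𝕜) 2 :=
    { toFun := fun x => ⟨v x, memℓp_gen' (hs x)⟩
      map_add' := fun x y => by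
        ext i
        change v (x + y) i = v x i + v y i
        simp [v, mul_add]
      map_smul' := fun c x => by
        ext i
        simp [v, mul_left_comm] }
  have hn : ∀ x, ‖J0 x‖ ≤ ‖x‖ := fun x =>
    lp.norm_le_of_forall_sum_le (by norm_num) (norm_nonneg x) (hs x)
  have hc : ∀ x i, b.coord i x = ((psi w (a i + 1) : ℝ) : 𝕜) * J0 x i := fun x i => by
    change _ = _ * (_ * _)
    rw [← mul_assoc, ← RCLike.ofReal_mul, psi,
      inv_mul_cancel₀ (Real.sqrt_pos.2 (hw.pos _)).ne', RCLike.ofReal_one, one_mul]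
  refine ⟨J0.mkContinuous 1 fun x => by simpa using hn x, ?_, hn, hc⟩
  rw [injective_iff_map_eq_zero]
  intro x hx
  have h0 : ∀ n, b.proj n x = 0 := fun n => by
    rw [SchauderBasis.proj_apply]
    refine sum_eq_zero fun i _ => ?_
    rw [hc x i, show J0 x = 0 from hx]
    simp
  have := b.tendsto_proj x
  simp only [h0] at this
  exact (tendsto_nhds_unique tendsto_const_nhds this).symm

end Pool.Agent.P.MP_c77070_an.Lor

end
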