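import Pool.Agent.P.MP_c77070_an.L.Defs

/-! Levels of the coefficients of a functional on a Lorentz space. -/

noncomputable section

namespace Pool.Agent.P.MP_c77070_an.Lor

open Filter Topology Finset
open scoped Classical

namespace F2A

lemma N_succ (m : ℕ) : N (m + 1) = N m ^ 2 := by
  rw [N, N, ← pow_mul, pow_succ]

lemma N_pos (m : ℕ) : (0 : ℝ) < N m := Nat.cast_pos.2 (Nat.two_pow_pos _)

lemma lt_N (m : ℕ) : m < N m := Nat.lt_two_pow_self.trans Nat.lt_two_pow_self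

lemma sq_le (n : ℕ) : n ^ 2 ≤ 2 * 2 ^ n := by
  induction n with
  | zero => simp
  | succ n ih =>
    have := Nat.lt_two_pow_self (n := n)
    rw [pow_succ 2]
    nlinarith

lemma growth {Ψ : ℕ → ℝ} {κ : ℝ} (h : Psi Ψ κ) :
    ∃ C : ℝ, 0 ≤ C ∧ ∀ r, Ψ (r + 1) ^ 4 ≤ C * (N r : ℝ) ^ 2 := by
  have h0 : ∀ m, 0 < Ψ m := fun m => one_pos.trans_le (h.one m)
  have hκ : 0 ≤ κ := ((mul_pos_iff_of_pos_right (h0 0)).1 ((h0 1).trans_le (h.step 0))).le
  have h1 : ∀ m, Ψ m ≤ κ ^ m * Ψ 0 := fun m => by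
    induction m with
    | zero => simp
    | succ m ih =>
      rw [pow_succ', mul_assoc]
      exact (h.step m).trans (mul_le_mul_of_nonneg_left ih hκ)
  obtain ⟨L, hL⟩ := pow_unbounded_of_one_lt (κ ^ 4) (one_lt_two (α := ℝ))
  refine ⟨Ψ 0 ^ 4 * 2 ^ L ^ 2, by positivity, fun r => ?_⟩
  have e : L * (r + 1) ≤ L ^ 2 + 2 ^ (r + 1) := by
    have := sq_le (r + 1)
    nlinarith [sq_nonneg ((L : ℤ) - (r + 1 : ℕ))]
  calc Ψ (r + 1) ^ 4 ≤ (κ ^ (r + 1) * Ψ 0) ^ 4 := pow_le_pow_left₀ (h0 _).le (h1 _) 4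
    _ = Ψ 0 ^ 4 * (κ ^ 4) ^ (r + 1) := by ring
    _ ≤ Ψ 0 ^ 4 * (2 ^ L) ^ (r + 1) :=
        mul_le_mul_of_nonneg_left (pow_le_pow_left₀ (by positivity) hL.le _) (by positivity)
    _ ≤ Ψ 0 ^ 4 * 2 ^ (L ^ 2 + 2 ^ (r + 1)) := by
        rw [← pow_mul]
        exact mul_le_mul_of_nonneg_left (pow_le_pow_right₀ one_le_two e) (by positivity)
    _ = _ := by
        rw [← Nat.cast_pow, ← N_succ, N, pow_add]
        push_cast
        ring

variable {𝕜 : Type} [RCLike 𝕜] {X : Type} [NormedAddCommGroup X] [NormedSpace 𝕜 X]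

lemma test {w : ℕ → ℝ} {b : SchauderBasis 𝕜 X} (hb : LF w b) {g : StrongDual 𝕜 X} (hg : ‖g‖ ≤ 1)
    (s : Finset ℕ) (t : ℕ → ℝ) (B : ℝ)
    (h : ∀ π : Equiv.Perm ℕ, ∑ i ∈ s, w (π i) * (t i * ‖g (b i)‖) ^ 2 ≤ B) :
    (∑ i ∈ s, t i * ‖g (b i)‖ ^ 2) ^ 2 ≤ B := by
  have h1 := hb.upper s (fun i => (t i : 𝕜) * starRingEnd 𝕜 (g (b i))) B fun π => by
    refine le_of_eq_of_le (sum_congr rfl fun i _ => ?_) (h π)
    rw [norm_mul, RCLike.norm_conj, RCLike.norm_ofReal, mul_pow, mul_pow, sq_abs]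
  have h2 : g (∑ i ∈ s, ((t i : 𝕜) * starRingEnd 𝕜 (g (b i))) • b i) =
      ((∑ i ∈ s, t i * ‖g (b i)‖ ^ 2 : ℝ) : 𝕜) := by
    rw [map_sum]
    push_cast
    refine sum_congr rfl fun i _ => ?_
    rw [map_smul, smul_eq_mul, mul_assoc, RCLike.conj_mul]
  have h3 := g.le_of_opNorm_le hg (∑ i ∈ s, ((t i : 𝕜) * starRingEnd 𝕜 (g (b i))) • b i)
  rw [h2, RCLike.norm_ofReal, one_mul] at h3
  rw [← sq_abs]
  exact (pow_le_pow_left₀ (abs_nonneg _) h3 2).trans h1

end F2A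

open F2A in
theorem f2 (𝕜 : Type) [RCLike 𝕜] : S_F2 𝕜 := by
  intro X _ _ w κ b hw hΨ hb
  obtain ⟨C, hC, hgr⟩ := growth hΨ
  have hsum : Summable fun j : ℕ => 1 / ((j + 1 : ℕ) : ℝ) ^ 2 :=
    (summable_nat_add_iff (f := fun j : ℕ => 1 / (j : ℝ) ^ 2) 1).2
      (Real.summable_one_div_nat_pow.2 one_lt_two)
  set D : ℝ := ∑' j : ℕ, 1 / ((j + 1 : ℕ) : ℝ) ^ 2 with hD
  have hD0 : 0 ≤ D := tsum_nonneg fun _ => by positivity
  have hw1 : ∀ n, w n ≤ 1 := fun n => (hw.anti (Nat.zero_le n)).trans_eq hw.zero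
  have hp : ∀ m, w (N m) * psi w m ^ 2 = 1 := fun m => by
    rw [psi, inv_pow, Real.sq_sqrt (hw.pos _).le, mul_inv_cancel₀ (hw.pos _).ne']
  refine ⟨psi w 0 ^ 2 + κ ^ 2 + C * D + 1, fun g hg => ?_⟩
  have one : ∀ s : Finset ℕ, ∑ i ∈ s, ‖g (b i)‖ ^ 2 ≤ 1 := fun s => by
    have := test hb hg s (fun _ => 1) (∑ i ∈ s, ‖g (b i)‖ ^ 2) fun π =>
      sum_le_sum fun i _ => by
        rw [one_mul]
        exact mul_le_of_le_one_left (sq_nonneg _) (hw1 _)
    simp only [one_mul] at this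
    nlinarith
  have ex : ∀ i, ∃ m : ℕ, g (b i) ≠ 0 → 1 / (N (m + 1) : ℝ) < ‖g (b i)‖ := fun i => by
    by_cases h : g (b i) = 0
    · exact ⟨0, fun h' => absurd h h'⟩
    · obtain ⟨m, hm⟩ := exists_nat_one_div_lt (norm_pos_iff.2 h)
      refine ⟨m, fun _ => lt_of_le_of_lt (one_div_le_one_div_of_le (by positivity) ?_) hm⟩
      exact_mod_cast (lt_N (m + 1)).le
  refine ⟨fun i => Nat.find (ex i), fun k s => ?_, fun s => ?_⟩
  · have h1 := one (s.filter fun i => g (b i) ≠ 0 ∧ Nat.find (ex i) = k)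
    have h2 := card_nsmul_le_sum (s.filter fun i => g (b i) ≠ 0 ∧ Nat.find (ex i) = k)
      (fun i => ‖g (b i)‖ ^ 2) ((1 / (N (k + 1) : ℝ)) ^ 2) fun i hi => by
        obtain ⟨-, a1, a2⟩ := mem_filter.1 hi
        have := Nat.find_spec (ex i) a1
        rw [a2] at this
        exact pow_le_pow_left₀ (by positivity) this.le 2
    have h3 := h2.trans h1
    rw [nsmul_eq_mul, one_div, inv_pow, mul_inv_le_iff₀ (pow_pos (N_pos _) 2), one_mul] at h3
    rw [N_succ (k + 1)]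
    exact_mod_cast h3
  · have key : ∀ i j : ℕ, w j * (psi w (Nat.find (ex i)) ^ 2 * ‖g (b i)‖) ^ 2 ≤
        (psi w 0 ^ 2 + κ ^ 2) * (psi w (Nat.find (ex i)) ^ 2 * ‖g (b i)‖ ^ 2) +
          C * (1 / ((j + 1 : ℕ) : ℝ) ^ 2) := by
      intro i j
      have A : ∀ m, w j * psi w m ^ 2 ≤ psi w 0 ^ 2 + κ ^ 2 →
          w j * (psi w m ^ 2 * ‖g (b i)‖) ^ 2 ≤ (psi w 0 ^ 2 + κ ^ 2) *
            (psi w m ^ 2 * ‖g (b i)‖ ^ 2) + C * (1 / ((j + 1 : ℕ) : ℝ) ^ 2) := fun m h => by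
        refine le_add_of_le_of_nonneg (le_of_eq_of_le (by ring)
          (mul_le_mul_of_nonneg_right h (by positivity))) (by positivity)
      rcases hm : Nat.find (ex i) with _ | r
      · refine A 0 (le_add_of_le_of_nonneg ?_ (sq_nonneg _))
        exact mul_le_of_le_one_left (sq_nonneg _) (hw1 _)
      · by_cases hj : N r ≤ j
        · refine A _ (le_add_of_nonneg_of_le (sq_nonneg _) ?_)
          calc _ ≤ w (N r) * (κ * psi w r) ^ 2 := mul_le_mul (hw.anti hj)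
                (pow_le_pow_left₀ (zero_le_one.trans (hΨ.one _)) (hΨ.step r) 2) (sq_nonneg _)
                (hw.pos _).le
            _ = κ ^ 2 * (w (N r) * psi w r ^ 2) := by ring
            _ = _ := by rw [hp, mul_one]
        · refine le_add_of_nonneg_of_le (by positivity) ?_
          have a1 : ‖g (b i)‖ ≤ 1 / (N (r + 1) : ℝ) := not_lt.1 fun h =>
            Nat.find_min (ex i) (m := r) (by omega) fun _ => h
          have a2 : ((j + 1 : ℕ) : ℝ) ≤ N r := Nat.cast_le.2 (not_le.1 hj)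
          have a3 := N_pos r
          calc _ ≤ (psi w (r + 1) ^ 2 * ‖g (b i)‖) ^ 2 :=
                mul_le_of_le_one_left (sq_nonneg _) (hw1 _)
            _ = psi w (r + 1) ^ 4 * ‖g (b i)‖ ^ 2 := by ring
            _ ≤ C * (N r : ℝ) ^ 2 * (1 / (N (r + 1) : ℝ)) ^ 2 :=
                mul_le_mul (hgr r) (pow_le_pow_left₀ (norm_nonneg _) a1 2) (sq_nonneg _)
                  (by positivity)
            _ = C * (1 / (N r : ℝ) ^ 2) := by
                rw [N_succ]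
                push_cast
                field_simp
            _ ≤ _ := mul_le_mul_of_nonneg_left (one_div_le_one_div_of_le (by positivity)
                (pow_le_pow_left₀ (by positivity) a2 2)) hC
    have h := test hb hg s (fun i => psi w (Nat.find (ex i)) ^ 2)
      ((psi w 0 ^ 2 + κ ^ 2) * ∑ i ∈ s, psi w (Nat.find (ex i)) ^ 2 * ‖g (b i)‖ ^ 2 + C * D)
      fun π => by
        refine (sum_le_sum fun i _ => key i (π i)).trans ?_
        rw [sum_add_distrib, ← mul_sum, ← mul_sum]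
        refine add_le_add le_rfl (mul_le_mul_of_nonneg_left ?_ hC)
        exact le_of_eq_of_le (sum_map s π.toEmbedding fun j => 1 / ((j + 1 : ℕ) : ℝ) ^ 2).symm
          (hsum.sum_le_tsum _ fun _ _ => by positivity)
    by_contra hlt
    have h1 := not_le.1 hlt
    have h2 := mul_nonneg hC hD0
    nlinarith [sq_nonneg (psi w 0), sq_nonneg κ]

end Pool.Agent.P.MP_c77070_an.Lor

end

noncomputable section

namespace Pool.Agent.P.MP_c77070_an.Lor

open Filter Topology Finset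
open scoped Classical

namespace POPA

theorem N_pos (k : ℕ) : 0 < N k := by unfold N; positivity

theorem N_mono {a b : ℕ} (h : a ≤ b) : N a ≤ N b :=
  Nat.pow_le_pow_right (by norm_num) (Nat.pow_le_pow_right (by norm_num) h)

theorem lt_N (i : ℕ) : i < N i :=
  Nat.lt_two_pow_self.trans Nat.lt_two_pow_self

theorem two_N (k : ℕ) : N k + N k ≤ N (k + 1) := by
  have h : 2 ^ k + 1 ≤ 2 ^ (k + 1) := by
    have := Nat.one_le_two_pow (n := k)
    rw [pow_succ]
    omega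
  calc N k + N k = 2 ^ (2 ^ k + 1) := by rw [N, pow_succ]; ring
    _ ≤ N (k + 1) := Nat.pow_le_pow_right (by norm_num) h

theorem count (lam : ℕ → ℝ) (Λ : ℝ) (A : ℕ → ℕ → Prop) (m : ℕ → ℕ → ℕ) (h0 : ∀ n, 0 ≤ lam n)
    (h1 : ∀ t : Finset ℕ, ∑ n ∈ t, lam n ≤ Λ)
    (h2 : ∀ (n k : ℕ) (s : Finset ℕ), (s.filter fun i => A n i ∧ m n i = k).card ≤ N (k + 2))
    (M : ℕ) (hM : 0 < M) (S : Finset ℕ)
    (hS : ∀ i ∈ S, ∃ (k : ℕ) (t : Finset ℕ), Λ * N (k + 2) * 2 ^ (k + 1) / M <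
      ∑ n ∈ t.filter (fun n => A n i ∧ m n i = k), lam n) : S.card ≤ M := by
  choose! kk tt ht using hS
  have hΛ : 0 ≤ Λ := by simpa using h1 ∅
  have hM' : (0 : ℝ) < M := Nat.cast_pos.2 hM
  rcases S.eq_empty_or_nonempty with rfl | ⟨i0, hi0⟩
  · simp
  have hΛ' : 0 < Λ := by
    refine lt_of_le_of_lt ?_ ((ht i0 hi0).trans_le (h1 _))
    positivity
  have key : ∀ k : ℕ, ((S.filter fun i => kk i = k).card : ℝ) ≤ M / 2 * (1 / 2) ^ k := by
    intro k
    have hN : (0 : ℝ) < N (k + 2) := Nat.cast_pos.2 (N_pos _)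
    have a1 : ((S.filter fun i => kk i = k).card : ℝ) * (Λ * N (k + 2) * 2 ^ (k + 1) / M) ≤
        ∑ i ∈ S.filter (fun i => kk i = k),
          ∑ n ∈ S.biUnion tt, if A n i ∧ m n i = k then lam n else 0 := by
      rw [← nsmul_eq_mul]
      refine card_nsmul_le_sum _ _ _ fun i hi => ?_
      obtain ⟨b1, b2⟩ := mem_filter.1 hi
      have b3 := (ht i b1).le
      rw [b2] at b3
      rw [← sum_filter]
      exact b3.trans (sum_le_sum_of_subset_of_nonneg
        (filter_subset_filter _ (subset_biUnion_of_mem tt b1)) fun n _ _ => h0 n)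
    have a2 : ∑ i ∈ S.filter (fun i => kk i = k),
        ∑ n ∈ S.biUnion tt, (if A n i ∧ m n i = k then lam n else 0) ≤ N (k + 2) * Λ := by
      rw [sum_comm]
      refine le_trans (sum_le_sum fun n _ => ?_)
        ((mul_sum _ _ _).ge.trans (mul_le_mul_of_nonneg_left (h1 (S.biUnion tt)) hN.le))
      rw [← sum_filter, sum_const, nsmul_eq_mul]
      exact mul_le_mul_of_nonneg_right (Nat.cast_le.2 (h2 n k _)) (h0 n)
    have a3 := a1.trans a2
    have a4 : (0 : ℝ) < Λ * N (k + 2) * 2 ^ (k + 1) / M := by positivity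
    refine le_of_mul_le_mul_right (a3.trans (le_of_eq ?_)) a4
    rw [one_div, inv_pow, pow_succ]
    field_simp
  have a5 : S.card = ∑ k ∈ range (S.sup kk + 1), (S.filter fun i => kk i = k).card :=
    card_eq_sum_card_fiberwise fun i hi => by
      simpa using Nat.lt_succ_of_le (le_sup (f := kk) hi)
  have a6 : (S.card : ℝ) ≤ M := by
    rw [a5]
    push_cast
    refine (sum_le_sum fun k _ => key k).trans ?_
    rw [← mul_sum]
    have := sum_geometric_two_le (S.sup kk + 1)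
    nlinarith
  exact_mod_cast a6

end POPA

theorem pop : S_Pop := by
  intro lam Λ A m h0 h1 h2
  have hΛ : 0 ≤ Λ := by simpa using h1 ∅
  let p : ℕ → ℕ → Prop := fun i r => i < N r ∨ ∃ (k : ℕ) (t : Finset ℕ),
    Λ * N (k + 2) * 2 ^ (k + 1) / N r < ∑ n ∈ t.filter (fun n => A n i ∧ m n i = k), lam n
  have hp : ∀ i, ∃ r, p i r := fun i => ⟨i, Or.inl (POPA.lt_N i)⟩
  have hm : ∀ i r r', r ≤ r' → p i r → p i r' := by
    rintro i r r' h (h3 | ⟨k, t, h3⟩)
    · exact Or.inl (h3.trans_le (POPA.N_mono h))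
    · refine Or.inr ⟨k, t, lt_of_le_of_lt ?_ h3⟩
      exact div_le_div_of_nonneg_left (by positivity) (Nat.cast_pos.2 (POPA.N_pos r))
        (Nat.cast_le.2 (POPA.N_mono h))
  refine ⟨fun i => Nat.find (hp i), fun k s => ?_, fun i k t hi => ?_⟩
  · set S := s.filter fun i => Nat.find (hp i) ≤ k with hS
    have b1 : (S.filter fun i => i < N k).card ≤ N k := by
      refine le_trans (card_le_card fun i hi => ?_) (card_range (N k)).le
      exact mem_range.2 (mem_filter.1 hi).2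
    have b2 : (S.filter fun i => ¬ i < N k).card ≤ N k := by
      refine POPA.count lam Λ A m h0 h1 h2 _ (POPA.N_pos k) _ fun i hi => ?_
      obtain ⟨c1, c2⟩ := mem_filter.1 hi
      exact (hm i _ k (mem_filter.1 c1).2 (Nat.find_spec (hp i))).resolve_left c2
    have b3 := card_filter_add_card_filter_not (s := S) fun i => i < N k
    have b4 := POPA.two_N k
    omega
  · have h3 : ¬ p i (Nat.find (hp i) - 1) := Nat.find_min (hp i) (Nat.sub_lt hi Nat.one_pos)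
    by_contra hc
    exact h3 (Or.inr ⟨k, t, not_le.1 hc⟩)

end Pool.Agent.P.MP_c77070_an.Lor

end

noncomputable section

namespace Pool.Agent.P.MP_c77070_an.Lor

open Filter Topology Finset
open scoped Classical

namespace FARA

theorem N_pos (k : ℕ) : (0 : ℝ) < N k := by unfold N; positivity

theorem N_mono {a b : ℕ} (h : a ≤ b) : (N a : ℝ) ≤ N b :=
  Nat.cast_le.2 (Nat.pow_le_pow_right (by norm_num) (Nat.pow_le_pow_right (by norm_num) h))

theorem N_succ (k : ℕ) : (N (k + 1) : ℝ) = N k * N k := by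
  unfold N
  rw [pow_succ 2 k, pow_mul]
  push_cast
  ring

theorem pow_le_N (k : ℕ) : (2 : ℝ) ^ k ≤ N k := by
  have : 2 ^ k ≤ N k := Nat.lt_two_pow_self.le
  exact_mod_cast this

theorem sq_le (r : ℕ) : (r + 8) ^ 2 ≤ 2 * 2 ^ (r + 5) := by
  induction r with
  | zero => norm_num
  | succ r ih =>
    rw [show r + 1 + 5 = r + 5 + 1 by ring, pow_succ 2 (r + 5)]
    nlinarith [Nat.zero_le r, Nat.zero_le (r ^ 2)]

theorem growth {Ψ : ℕ → ℝ} {κ : ℝ} (h : Psi Ψ κ) :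
    ∃ C : ℝ, 0 ≤ C ∧ ∀ r, Ψ (r + 8) ^ 2 ≤ C * N (r + 5) := by
  obtain ⟨K, hK⟩ := pow_unbounded_of_one_lt (κ ^ 2) (one_lt_two (α := ℝ))
  have h1 : ∀ m, Ψ m ^ 2 ≤ Ψ 0 ^ 2 * 2 ^ (K * m) := by
    intro m
    induction m with
    | zero => simp
    | succ m ih =>
      have a1 : Ψ (m + 1) ^ 2 ≤ (κ * Ψ m) ^ 2 :=
        pow_le_pow_left₀ (zero_le_one.trans (h.one _)) (h.step m) 2
      rw [mul_pow] at a1
      rw [Nat.mul_succ, pow_add, ← mul_assoc, mul_comm]
      exact a1.trans (mul_le_mul hK.le ih (sq_nonneg _) (by positivity))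
  refine ⟨Ψ 0 ^ 2 * 2 ^ (K ^ 2), by positivity, fun r => (h1 _).trans ?_⟩
  rw [mul_assoc]
  refine mul_le_mul_of_nonneg_left ?_ (sq_nonneg _)
  unfold N
  push_cast
  rw [← pow_add]
  refine pow_le_pow_right₀ one_le_two ?_
  have := sq_le r
  nlinarith [Nat.zero_le (K ^ 2), two_mul_le_add_sq K (r + 8)]

theorem geo (r : ℕ) : ∑ k ∈ range (r + 1), (N (k + 2) : ℝ) * 2 ^ (k + 1) ≤ N (r + 3) := by
  have h1 : ∀ n : ℕ, ∑ k ∈ range n, (2 : ℝ) ^ (k + 1) ≤ 2 ^ (n + 1) := by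
    intro n
    induction n with
    | zero => simp
    | succ n ih =>
      rw [sum_range_succ, pow_succ 2 (n + 1)]
      linarith
  calc _ ≤ ∑ k ∈ range (r + 1), (N (r + 2) : ℝ) * 2 ^ (k + 1) :=
        sum_le_sum fun k hk => mul_le_mul_of_nonneg_right
          (N_mono (by have := mem_range.1 hk; omega)) (by positivity)
    _ ≤ N (r + 2) * N (r + 2) := by
        rw [← mul_sum]
        exact mul_le_mul_of_nonneg_left ((h1 _).trans (pow_le_N (r + 2))) (N_pos _).le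
    _ = N (r + 3) := (N_succ _).symm

theorem coef {C Λ x S : ℝ} {r z : ℕ} (hC : 0 ≤ C) (hΛ : 0 ≤ Λ) (hS0 : 0 ≤ S) (hz : z ≤ r)
    (hx : x ≤ C * N (r + 5)) (hS : S ≤ Λ * N (r + 3) / N (r + 6)) :
    x * S ≤ C * Λ / N (z + 4) := by
  have p3 := N_pos (r + 3)
  have p4 := N_pos (r + 4)
  have p5 := N_pos (r + 5)
  have e5 : (N (r + 5) : ℝ) = N (r + 4) * N (r + 4) := N_succ _
  have e6 : (N (r + 6) : ℝ) = N (r + 5) * N (r + 5) := N_succ _
  calc x * S ≤ C * N (r + 5) * (Λ * N (r + 3) / N (r + 6)) :=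
        mul_le_mul hx hS hS0 (by positivity)
    _ = C * Λ / N (r + 4) * (N (r + 3) / N (r + 4)) := by
        rw [e6, e5]
        field_simp
    _ ≤ C * Λ / N (r + 4) :=
        mul_le_of_le_one_right (by positivity) ((div_le_one p4).2 (N_mono (by omega)))
    _ ≤ _ := div_le_div_of_nonneg_left (by positivity) (N_pos _) (N_mono (by omega))

end FARA

theorem far : S_Far := by
  intro Ψ κ C₁ hΨ
  obtain ⟨C, hC, hg⟩ := FARA.growth hΨ
  refine ⟨(|C₁| + C) / 2, by positivity, ?_⟩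
  intro t s lam Λ c G m a h z h0 h1 hc hG hh hN hC₁ hP
  have hΛ : 0 ≤ Λ := (sum_nonneg fun n _ => h0 n).trans h1
  have a1 : ∀ n, ∑ i ∈ s.filter (fun i => max (m n i) z + 7 ≤ a i), c n i * Ψ (a i + 1) * G n i ≤
      (|C₁| + ∑ i ∈ s, if max (m n i) z + 7 ≤ a i ∧ c n i ≠ 0 then
        Ψ (a i + 1) ^ 2 * h i ^ 2 else 0) / 2 := by
    intro n
    rw [sum_filter]
    refine le_trans ?_ (div_le_div_of_nonneg_right
      (add_le_add_left ((hC₁ n).trans (le_abs_self _)) _) zero_le_two)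
    rw [← sum_add_distrib, sum_div]
    refine sum_le_sum fun i _ => ?_
    have b0 : 0 ≤ Ψ (m n i) ^ 2 * c n i ^ 2 := by positivity
    by_cases b1 : max (m n i) z + 7 ≤ a i
    · by_cases b2 : c n i = 0
      · simp [b2]
      · rw [if_pos b1, if_pos ⟨b1, b2⟩]
        have b3 : c n i ^ 2 ≤ Ψ (m n i) ^ 2 * c n i ^ 2 :=
          le_mul_of_one_le_left (sq_nonneg _) (one_le_pow₀ (hΨ.one _))
        have b4 : c n i * Ψ (a i + 1) * G n i ≤ c n i * Ψ (a i + 1) * h i :=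
          mul_le_mul_of_nonneg_left (hh n i)
            (mul_nonneg (hc n i) (zero_le_one.trans (hΨ.one _)))
        nlinarith [sq_nonneg (c n i - Ψ (a i + 1) * h i)]
    · rw [if_neg b1, if_neg fun b => b1 b.1]
      linarith
  have a2 : ∀ i, Ψ (a i + 1) ^ 2 *
      ∑ n ∈ t, (if max (m n i) z + 7 ≤ a i ∧ c n i ≠ 0 then lam n else 0) ≤
        C * Λ / N (z + 4) := by
    intro i
    by_cases b1 : z + 7 ≤ a i
    · obtain ⟨r, hr⟩ : ∃ r, a i = r + 7 := ⟨a i - 7, by omega⟩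
      refine FARA.coef (r := r) hC hΛ
        (sum_nonneg fun n _ => by split_ifs; exacts [h0 n, le_rfl]) (by omega)
        (by rw [hr]; exact hg r) ?_
      have b2 : ∀ k, ∑ n ∈ t, (if c n i ≠ 0 ∧ m n i = k then lam n else 0) ≤
          Λ / N (r + 6) * (N (k + 2) * 2 ^ (k + 1)) := by
        intro k
        have := hP i k (by omega)
        rw [sum_filter, hr, show r + 7 - 1 = r + 6 from rfl] at this
        refine this.trans (le_of_eq ?_)
        ring
      calc _ ≤ ∑ n ∈ t, ∑ k ∈ range (r + 1), (if c n i ≠ 0 ∧ m n i = k then lam n else 0) := by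
            refine sum_le_sum fun n _ => ?_
            have b3 : ∀ k ∈ range (r + 1),
                0 ≤ (if c n i ≠ 0 ∧ m n i = k then lam n else 0) := fun k _ => by
              split_ifs
              exacts [h0 n, le_rfl]
            split_ifs with b4
            · refine le_trans ?_ (single_le_sum b3 (a := m n i) (mem_range.2 (by omega)))
              rw [if_pos ⟨b4.2, rfl⟩]
            · exact sum_nonneg b3
        _ ≤ ∑ k ∈ range (r + 1), Λ / N (r + 6) * (N (k + 2) * 2 ^ (k + 1)) := by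
            rw [sum_comm]
            exact sum_le_sum fun k _ => b2 k
        _ ≤ Λ / N (r + 6) * N (r + 3) := by
            rw [← mul_sum]
            exact mul_le_mul_of_nonneg_left (FARA.geo r) (div_nonneg hΛ (FARA.N_pos _).le)
        _ = _ := by ring
    · rw [sum_eq_zero fun n _ => if_neg fun b => b1 (by omega), mul_zero]
      exact div_nonneg (mul_nonneg hC hΛ) (FARA.N_pos _).le
  have a3 : ∑ n ∈ t, lam n * ∑ i ∈ s, (if max (m n i) z + 7 ≤ a i ∧ c n i ≠ 0 then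
      Ψ (a i + 1) ^ 2 * h i ^ 2 else 0) ≤ C * Λ := by
    calc _ = ∑ i ∈ s, (Ψ (a i + 1) ^ 2 *
          ∑ n ∈ t, (if max (m n i) z + 7 ≤ a i ∧ c n i ≠ 0 then lam n else 0)) * h i ^ 2 := by
          simp only [mul_sum, sum_mul]
          rw [sum_comm]
          refine sum_congr rfl fun i _ => sum_congr rfl fun n _ => ?_
          split_ifs <;> ring
      _ ≤ ∑ i ∈ s, C * Λ / N (z + 4) * h i ^ 2 :=
          sum_le_sum fun i _ => mul_le_mul_of_nonneg_right (a2 i) (sq_nonneg _)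
      _ ≤ C * Λ / N (z + 4) * N (z + 4) := by
          rw [← mul_sum]
          exact mul_le_mul_of_nonneg_left hN (div_nonneg (mul_nonneg hC hΛ) (FARA.N_pos _).le)
      _ = C * Λ := div_mul_cancel₀ _ (FARA.N_pos _).ne'
  have a4 : ∑ n ∈ t, lam n * |C₁| ≤ Λ * |C₁| := by
    rw [← sum_mul]
    exact mul_le_mul_of_nonneg_right h1 (abs_nonneg _)
  refine (sum_le_sum fun n _ => mul_le_mul_of_nonneg_left (a1 n) (h0 n)).trans ?_
  simp only [← mul_div_assoc, mul_add]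
  rw [← sum_div, sum_add_distrib]
  linarith

end Pool.Agent.P.MP_c77070_an.Lor

end

/-! Block AVG: the growth function of a regular weight and the averaging window. -/

noncomputable section

namespace Pool.Agent.P.MP_c77070_an.Lor

open Filter Topology Finset
open scoped Classical

namespace AVGA

theorem N_succ (m : ℕ) : N (m + 1) = N m ^ 2 := by
  rw [N, N, ← pow_mul, pow_succ]

theorem N_mono : Monotone N := fun _ _ h =>
  Nat.pow_le_pow_right two_pos (Nat.pow_le_pow_right two_pos h)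

theorem part1 (w : ℕ → ℝ) (hw : Wt w) (c : ℝ) (hc : 0 < c) (h : ∀ n, c * w n ≤ w (n ^ 2)) :
    Psi (psi w) (√c)⁻¹ where
  one m := by
    refine (one_le_inv₀ (Real.sqrt_pos.2 (hw.pos _))).2 (Real.sqrt_le_one.2 ?_)
    exact hw.zero ▸ hw.anti (Nat.zero_le _)
  mono a b hab :=
    inv_anti₀ (Real.sqrt_pos.2 (hw.pos _)) (Real.sqrt_le_sqrt (hw.anti (N_mono hab)))
  step m := by
    rw [psi, psi, ← mul_inv, ← Real.sqrt_mul hc.le, N_succ]
    exact inv_anti₀ (Real.sqrt_pos.2 (mul_pos hc (hw.pos _))) (Real.sqrt_le_sqrt (h _))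

theorem sum_log (F : ℕ → ℝ) (m₀ M : ℕ) (h : m₀ ≤ M) :
    ∑ p ∈ Ico (2 ^ m₀) (2 ^ M), F (Nat.log 2 p) = ∑ k ∈ Ico m₀ M, 2 ^ k * F k := by
  induction M, h using Nat.le_induction with
  | base => simp
  | succ M h ih =>
    rw [sum_Ico_succ_top h, ← ih, ← sum_Ico_consecutive _ (Nat.pow_le_pow_right two_pos h)
      (Nat.pow_le_pow_right two_pos M.le_succ)]
    congr 1
    rw [sum_congr rfl (g := fun _ => F M) fun p hp => by
      rw [Nat.log_eq_of_pow_le_of_lt_pow (mem_Ico.1 hp).1 (mem_Ico.1 hp).2]]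
    rw [sum_const, Nat.card_Ico, nsmul_eq_mul, pow_succ, mul_two, Nat.add_sub_cancel]
    norm_num

end AVGA

theorem avg : S_Avg := by
  refine ⟨fun w hw ⟨c, hc, h⟩ => ⟨_, AVGA.part1 w hw c hc h⟩, fun w hw h h' => h ?_,
    fun Ψ hΨ h m₀ => ?_, fun m₀ p hp => ?_⟩
  · refine (summable_condensed_iff_of_nonneg (f := fun k : ℕ => √(w (2 ^ k)))
      (fun _ => Real.sqrt_nonneg _) fun m n _ hmn =>
        Real.sqrt_le_sqrt (hw.anti (Nat.pow_le_pow_right two_pos hmn))).1 ?_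
    refine h'.congr fun k => ?_
    rw [psi, div_inv_eq_mul, N]
  · have h0 : ∀ k, (0 : ℝ) ≤ 2 ^ k / Ψ k := fun k => div_nonneg (by positivity) (hΨ k).le
    have h1 := (not_summable_iff_tendsto_nat_atTop_of_nonneg h0).1 h
    obtain ⟨A, hA⟩ : ∃ A, A = ∑ k ∈ range m₀, (2 : ℝ) ^ k / Ψ k := ⟨_, rfl⟩
    have hA0 : 0 ≤ A := hA ▸ sum_nonneg fun k _ => h0 k
    obtain ⟨M, hM, hM'⟩ :=
      ((h1.eventually_ge_atTop (2 * A + 1)).and (eventually_ge_atTop m₀)).exists
    obtain ⟨S, hS⟩ : ∃ S, S = ∑ k ∈ Ico m₀ M, (2 : ℝ) ^ k / Ψ k := ⟨_, rfl⟩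
    have e : ∑ k ∈ range M, (2 : ℝ) ^ k / Ψ k = A + S := by
      rw [hA, hS, sum_range_add_sum_Ico _ hM']
    rw [e] at hM
    have hS0 : 0 < S := by linarith
    refine ⟨M, S⁻¹, inv_nonneg.2 hS0.le, inv_le_one_of_one_le₀ (by linarith), ?_, ?_⟩
    · rw [e, inv_mul_le_iff₀ hS0]
      linarith
    · rw [AVGA.sum_log (fun k => S⁻¹ / Ψ k) m₀ M hM', ← inv_mul_cancel₀ hS0.ne']
      nth_rewrite 3 [hS]
      rw [mul_sum]
      exact sum_congr rfl fun k _ => by ring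
  · have h1 := Nat.lt_pow_succ_log_self (b := 2) (by norm_num) p
    rw [N, N, show 16 = 2 ^ 4 from rfl, ← pow_mul, ← pow_add]
    refine Nat.pow_le_pow_right two_pos ?_
    rw [pow_succ] at h1
    rw [pow_add]
    omega

end Pool.Agent.P.MP_c77070_an.Lor

end

/-! Lifting a finite rank operator through an injection. -/

namespace Pool.Agent.P.MP_c77070_an.Lor

theorem lift (𝕜 : Type) [RCLike 𝕜] : S_Lift 𝕜 := by
  intro Y H _ _ _ _ J P _ hP h
  let b := Module.finBasis 𝕜 (LinearMap.range (P : H →ₗ[𝕜] H))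
  choose y hy using fun v : LinearMap.range (P : H →ₗ[𝕜] H) =>
    show ∃ y, J y = v.1 from v.2.elim fun x hx => hx ▸ h x
  let R := b.constr 𝕜 fun i => y (b i)
  have hR : (J : Y →ₗ[𝕜] H) ∘ₗ R = Submodule.subtype _ := b.ext fun i => by simp [R, hy]
  let P' := P.codRestrict (LinearMap.range (P : H →ₗ[𝕜] H)) fun x => ⟨x, rfl⟩
  refine ⟨R.toContinuousLinearMap ∘L P' ∘L J, ?_, fun v => LinearMap.congr_fun hR (P' (J v))⟩
  refine Submodule.finiteDimensional_of_le (S₂ := LinearMap.range R) ?_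
  rintro _ ⟨v, rfl⟩
  exact ⟨_, rfl⟩

end Pool.Agent.P.MP_c77070_an.Lor
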