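import Pool.Agent.P.MP_c77070_an.L.Defs

/-! Block EST. -/

noncomputable section

namespace Pool.Agent.P.MP_c77070_an.Lor

open Filter Topology Finset
open scoped Classical

namespace ESTA

lemma geo {q : ℝ} (h0 : 0 ≤ q) (h1 : q < 1) (I : Finset ℕ) (f : ℕ → ℕ) (hf : Set.InjOn f I) :
    ∑ p ∈ I, q ^ f p ≤ (1 - q)⁻¹ := by
  rw [← sum_image (f := fun n => q ^ n) hf, ← tsum_geometric_of_lt_one h0 h1]
  exact (summable_geometric_of_lt_one h0 h1).sum_le_tsum _ fun _ _ => pow_nonneg h0 _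

lemma geo2 (I : Finset ℕ) (j : ℕ) : ∑ p ∈ I, (5 / 6 : ℝ) ^ (p - j + (j - p)) ≤ 12 := by
  rw [← sum_filter_add_sum_filter_not I fun p => p ≤ j]
  have h1 := geo (q := 5 / 6) (by norm_num) (by norm_num) (I.filter fun p => p ≤ j)
    (fun p => p - j + (j - p)) fun a ha b hb e => by
      have := (mem_filter.1 (mem_coe.1 ha)).2
      have := (mem_filter.1 (mem_coe.1 hb)).2
      simp only at e
      omega
  have h2 := geo (q := 5 / 6) (by norm_num) (by norm_num) (I.filter fun p => ¬ p ≤ j)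
    (fun p => p - j + (j - p)) fun a ha b hb e => by
      have := (mem_filter.1 (mem_coe.1 ha)).2
      have := (mem_filter.1 (mem_coe.1 hb)).2
      simp only at e
      omega
  norm_num at h1 h2 ⊢
  linarith

lemma half {n τ d : ℕ} (h1 : τ ≤ n) (h2 : d ≤ n) :
    (1 / 2 : ℝ) ^ n ≤ (3 / 5) ^ τ * (5 / 6) ^ d := by
  rw [show (1 / 2 : ℝ) = 3 / 5 * (5 / 6) by norm_num, mul_pow]
  exact mul_le_mul (pow_le_pow_of_le_one (by norm_num) (by norm_num) h1)
    (pow_le_pow_of_le_one (by norm_num) (by norm_num) h2) (by positivity) (by positivity)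

/-- The error term. -/
def err (τ j : ℕ) (D : ℕ → ℝ) (p : ℕ) : ℝ :=
  (if j ≤ p + τ ∧ p ≤ j + τ then D p else 0) + 4 * ((3 / 5) ^ τ * (5 / 6) ^ (p - j + (j - p)))

lemma err_nonneg {τ j : ℕ} {D : ℕ → ℝ} (h : ∀ p, 0 ≤ D p) (p : ℕ) : 0 ≤ err τ j D p :=
  add_nonneg (by split_ifs; exacts [h p, le_rfl]) (by positivity)

lemma le_err {G : ℕ → ℕ → ℝ} {x : ℕ → ℝ} {j : ℕ → ℕ} (h : GF G x j) {τ i p : ℕ} (hτ : 0 < τ)
    {D : ℕ → ℝ} (hD : G i p ≤ D p + if 2 * τ ≤ p then G i (p - 2 * τ) else 0) :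
    G i p ≤ x i + err τ (j i) D p := by
  have h0 := h.xnonneg i
  have h1 : (0 : ℝ) ≤ (3 / 5) ^ τ * (5 / 6) ^ (p - j i + (j i - p)) := by positivity
  unfold err
  split_ifs with h2
  · split_ifs at hD with h3
    · have h4 := h.before i (p - 2 * τ) (by omega)
      have h5 := half (n := j i - (p - 2 * τ)) (τ := τ) (d := p - j i + (j i - p)) (by omega)
        (by omega)
      linarith
    · linarith
  · rcases lt_or_ge p (j i) with h3 | h3
    · have h4 := h.before i p h3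
      have h5 := half (n := j i - p) (τ := τ) (d := p - j i + (j i - p)) (by omega) (by omega)
      linarith
    · have h4 := h.after i p h3
      have h5 := half (n := p - j i) (τ := τ) (d := p - j i + (j i - p)) (by omega) (by omega)
      linarith

lemma sum_err {τ j : ℕ} {D : ℕ → ℝ} (I : Finset ℕ) {c ψ : ℝ} (hc : 0 ≤ c) (hψ : 0 < ψ) :
    c * ∑ p ∈ I, err τ j D p ≤ (2 * τ + 1) * (ψ ^ 2 * c ^ 2) / (2 * ψ) +
      (∑ p ∈ I, D p ^ 2) / (2 * ψ) + 48 * (3 / 5) ^ τ * c := by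
  have h1 : ((I.filter fun p => j ≤ p + τ ∧ p ≤ j + τ).card : ℝ) ≤ 2 * τ + 1 := by
    have : (I.filter fun p => j ≤ p + τ ∧ p ≤ j + τ) ⊆ Icc (j - τ) (j + τ) := fun p hp => by
      have := (mem_filter.1 hp).2
      exact mem_Icc.2 (by omega)
    have := card_le_card this
    rw [Nat.card_Icc] at this
    exact_mod_cast (by omega : _ ≤ 2 * τ + 1)
  have h2 : c * ∑ p ∈ I.filter fun p => j ≤ p + τ ∧ p ≤ j + τ, D p ≤
      ∑ p ∈ I.filter fun p => j ≤ p + τ ∧ p ≤ j + τ,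
        (ψ ^ 2 * c ^ 2 / (2 * ψ) + D p ^ 2 / (2 * ψ)) := by
    rw [mul_sum]
    refine sum_le_sum fun p _ => ?_
    rw [← add_div, le_div_iff₀ (by positivity)]
    nlinarith [sq_nonneg (ψ * c - D p)]
  rw [sum_add_distrib, sum_const, nsmul_eq_mul, ← sum_div] at h2
  have h3 : ∑ p ∈ I.filter fun p => j ≤ p + τ ∧ p ≤ j + τ, D p ^ 2 ≤ ∑ p ∈ I, D p ^ 2 :=
    sum_le_sum_of_subset_of_nonneg (filter_subset _ _) fun _ _ _ => sq_nonneg _
  have h4 := mul_le_mul_of_nonneg_right h1 (show 0 ≤ ψ ^ 2 * c ^ 2 / (2 * ψ) by positivity)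
  have h5 := div_le_div_of_nonneg_right h3 (show 0 ≤ 2 * ψ by positivity)
  have h6 := mul_le_mul_of_nonneg_left (geo2 I j) (show 0 ≤ 4 * (3 / 5 : ℝ) ^ τ * c by positivity)
  simp only [err]
  rw [sum_add_distrib, ← sum_filter, ← mul_sum, ← mul_sum, mul_add, mul_div_assoc]
  linarith

lemma num (k : ℕ) : (3 / 5 : ℝ) ^ 2 ^ (k + 3) * N (k + 2) ≤ (18 / 25) ^ k := by
  have e : (3 / 5 : ℝ) ^ 2 ^ (k + 3) * N (k + 2) = (18 / 25) ^ 2 ^ (k + 2) := by
    rw [N, pow_succ' 2 (k + 2), pow_mul, Nat.cast_pow, ← mul_pow]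
    norm_num
  rw [e]
  exact pow_le_pow_of_le_one (by norm_num) (by norm_num)
    ((Nat.le_add_right k 2).trans Nat.lt_two_pow_self.le)

lemma lev {s I : Finset ℕ} {c : ℕ → ℝ} {j : ℕ → ℕ} {D : ℕ → ℕ → ℝ} {ψ C : ℝ} (k : ℕ) (hψ : 0 < ψ)
    (h0 : ∀ i, 0 ≤ c i) (h1 : ∀ i, c i ≤ 1) (h2 : (s.filter fun i => c i ≠ 0).card ≤ N (k + 2))
    (h3 : ∑ i ∈ s, ψ ^ 2 * c i ^ 2 ≤ C) (hC : 0 ≤ C)
    (h4 : ∑ p ∈ I, ∑ i ∈ s, D i p ^ 2 ≤ ((2 * 2 ^ (k + 3) : ℕ) : ℝ)) :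
    ∑ i ∈ s, c i * ∑ p ∈ I, err (2 ^ (k + 3)) (j i) (D i) p ≤
      (9 * C + 8) * (2 ^ k / ψ) + 48 * (18 / 25) ^ k := by
  refine (sum_le_sum fun i _ => sum_err I (h0 i) hψ).trans ?_
  rw [sum_add_distrib, sum_add_distrib, ← sum_div, ← sum_div, ← mul_sum, ← mul_sum s c, sum_comm]
  have h5 : ∑ i ∈ s, c i ≤ N (k + 2) := by
    rw [← sum_filter_ne_zero]
    refine (sum_le_card_nsmul _ _ 1 fun i _ => h1 i).trans ?_
    rw [nsmul_eq_mul, mul_one]
    exact_mod_cast h2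
  have h6 := mul_le_mul_of_nonneg_left h5 (show (0 : ℝ) ≤ (3 / 5) ^ 2 ^ (k + 3) by positivity)
  have h7 := num k
  have h8 : (1 : ℝ) ≤ 2 ^ k := one_le_pow₀ one_le_two
  have e : (2 : ℝ) ^ (k + 3) = 8 * 2 ^ k := by ring
  push_cast at h4 ⊢
  rw [e] at h4 ⊢
  have h9 : (2 * (8 * 2 ^ k) + 1) * ∑ i ∈ s, ψ ^ 2 * c i ^ 2 + ∑ p ∈ I, ∑ i ∈ s, D i p ^ 2 ≤
      2 * ((9 * C + 8) * 2 ^ k) := by
    have := mul_le_mul_of_nonneg_left h3 (show (0 : ℝ) ≤ 2 * (8 * 2 ^ k) + 1 by positivity)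
    nlinarith
  have h10 := div_le_div_of_nonneg_right h9 (show 0 ≤ 2 * ψ by positivity)
  rw [add_div, mul_div_mul_left _ _ two_ne_zero, mul_div_assoc (9 * C + 8)] at h10
  linarith

lemma step7 {Ψ : ℕ → ℝ} {κ : ℝ} (h : Psi Ψ κ) : 1 ≤ κ ∧ ∀ n m, Ψ (m + n) ≤ κ ^ n * Ψ m := by
  have h0 : 1 ≤ κ := by
    have h1 := (h.mono (Nat.zero_le 1)).trans (h.step 0)
    have h2 := h.one 0
    nlinarith
  refine ⟨h0, fun n m => ?_⟩
  induction n with
  | zero => simp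
  | succ n ih =>
    rw [← add_assoc, pow_succ', mul_assoc]
    exact (h.step _).trans (mul_le_mul_of_nonneg_left ih (by linarith))

end ESTA

open ESTA in
theorem est : S_Est := by
  intro Ψ κ C₁ hΨ
  obtain ⟨hκ, h7⟩ := step7 hΨ
  have hK : 0 ≤ κ ^ 7 := by positivity
  have hp : ∀ k, 0 < Ψ k := fun k => one_pos.trans_le (hΨ.one k)
  have hC := abs_nonneg C₁
  refine ⟨κ ^ 7 * ((|C₁| + 1) / 2) + 1 + κ ^ 7 * ((9 * |C₁| + 8) * 2 + 48 * 4), by positivity,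
    fun s I M η c x G m a j h0 h1 hM hI hw c0 c1 hN hs hx hG => ?_⟩
  replace hs := hs.trans (le_abs_self C₁)
  choose D D0 D1 D2 using fun k => hG.diff (2 * 2 ^ (k + 3))
  set r : ℕ → ℕ → ℝ := fun i => err (2 ^ (m i + 3)) (j i) (D (m i) i) with hr
  have r0 : ∀ i p, 0 ≤ r i p := fun i => err_nonneg (D0 _ i)
  have w0 : ∀ p, 0 ≤ η / Ψ (Nat.log 2 p) := fun p => div_nonneg h0 (hp _).le
  have key : ∀ p ∈ I, η / Ψ (Nat.log 2 p) *
      ∑ i ∈ s.filter (fun i => ¬ max (m i) (Nat.log 2 p) + 7 ≤ a i), c i * Ψ (a i + 1) * G i p ≤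
      η / Ψ (Nat.log 2 p) * (κ ^ 7 * ((|C₁| + 1) / 2) + 1) +
        κ ^ 7 * η * ∑ i ∈ s.filter (fun i => m i ∈ range M), c i * r i p := by
    intro p hpI
    have h2 : κ ^ 7 * ((∑ i ∈ s, Ψ (m i) ^ 2 * c i ^ 2 + ∑ i ∈ s, G i p ^ 2) / 2) +
        ∑ i ∈ s, c i * Ψ (a i + 1) * x i ≤ κ ^ 7 * ((|C₁| + 1) / 2) + 1 := by
      have := hG.bessel p s
      gcongr
    refine le_trans ?_ (add_le_add (mul_le_mul_of_nonneg_left h2 (w0 p)) le_rfl)
    rw [← sum_add_distrib, sum_div, mul_sum s, ← sum_add_distrib, sum_filter, sum_filter, mul_sum,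
      mul_sum, mul_sum, ← sum_add_distrib]
    refine sum_le_sum fun i _ => ?_
    have a1 : 0 ≤ c i * Ψ (a i + 1) := mul_nonneg (c0 i) (hp _).le
    have a2 := mul_nonneg a1 (hG.xnonneg i)
    have a3 : 0 ≤ κ ^ 7 * ((Ψ (m i) ^ 2 * c i ^ 2 + G i p ^ 2) / 2) := by positivity
    have a4 : 0 ≤ κ ^ 7 * η * if m i ∈ range M then c i * r i p else 0 :=
      mul_nonneg (mul_nonneg hK h0) (by split_ifs; exacts [mul_nonneg (c0 i) (r0 i p), le_rfl])
    have a5 := w0 p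
    by_cases h3 : max (m i) (Nat.log 2 p) + 7 ≤ a i
    · rw [if_neg (not_not.2 h3), mul_zero]
      positivity
    rw [if_pos h3]
    have a6 := (hΨ.mono (show a i + 1 ≤ max (m i) (Nat.log 2 p) + 7 by omega)).trans (h7 7 _)
    rcases le_or_gt (Nat.log 2 p) (m i) with h4 | h4
    · rw [max_eq_left h4] at a6
      refine le_add_of_le_of_nonneg (mul_le_mul_of_nonneg_left ?_ a5) a4
      have b1 := mul_le_mul_of_nonneg_left a6 (mul_nonneg (c0 i) (hG.nonneg i p))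
      have b2 := mul_nonneg hK (sq_nonneg (Ψ (m i) * c i - G i p))
      nlinarith
    · rw [max_eq_right h4.le] at a6
      rw [if_pos (mem_range.2 (h4.trans (hI p hpI)))]
      have b1 : G i p ≤ x i + r i p := le_err hG (by positivity) (D1 (m i) i p)
      have b2 := mul_le_mul_of_nonneg_left b1 (mul_nonneg a5 a1)
      have b3 : η / Ψ (Nat.log 2 p) * Ψ (a i + 1) ≤ κ ^ 7 * η := by
        rw [div_mul_eq_mul_div, div_le_iff₀ (hp _)]
        nlinarith [mul_le_mul_of_nonneg_left a6 h0]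
      have b4 := mul_le_mul_of_nonneg_right b3 (mul_nonneg (c0 i) (r0 i p))
      nlinarith [mul_nonneg a5 a3]
  refine (sum_le_sum key).trans ?_
  rw [sum_add_distrib, ← sum_mul, ← mul_sum, sum_comm, ← sum_fiberwise_eq_sum_filter]
  refine add_le_add (mul_le_of_le_one_left (by positivity) hw) ?_
  rw [mul_assoc]
  refine mul_le_mul_of_nonneg_left ?_ hK
  have h2 : ∀ k ∈ range M, ∑ i ∈ s.filter (fun i => m i = k), ∑ p ∈ I, c i * r i p ≤
      (9 * |C₁| + 8) * (2 ^ k / Ψ k) + 48 * (18 / 25) ^ k := fun k _ => by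
    refine le_trans (le_of_eq (sum_congr rfl fun i hi => ?_)) (lev (j := j) k (hp k) c0 c1
      (s := s.filter fun i => m i = k) ?_ ?_ hC (D2 k _ I))
    · rw [← mul_sum, hr, ← (mem_filter.1 hi).2]
    · rw [filter_filter]
      simpa only [and_comm] using hN k
    · refine le_trans ?_ hs
      rw [sum_congr rfl (g := fun i => Ψ (m i) ^ 2 * c i ^ 2) fun i hi => by
        rw [(mem_filter.1 hi).2]]
      exact sum_le_sum_of_subset_of_nonneg (filter_subset _ _) fun _ _ _ => by positivity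
  have h3 := mul_le_mul_of_nonneg_left (sum_le_sum h2) h0
  have h4 := geo (q := 18 / 25) (by norm_num) (by norm_num) (range M) id (Set.injOn_id _)
  have h5 : 0 ≤ ∑ k ∈ range M, (18 / 25 : ℝ) ^ k := sum_nonneg fun _ _ => by positivity
  rw [sum_add_distrib, ← mul_sum, ← mul_sum] at h3
  norm_num at h4
  have h6 := mul_le_mul_of_nonneg_left hM (show 0 ≤ 9 * |C₁| + 8 by positivity)
  nlinarith [mul_le_mul_of_nonneg_right h1 h5]

end Pool.Agent.P.MP_c77070_an.Lor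

end

/-! Block CH: chains of finite rank projections. -/

noncomputable section

namespace Pool.Agent.P.MP_c77070_an.Lor

open Filter Topology Finset
open scoped Classical

namespace CHA

variable {𝕜 : Type} [RCLike 𝕜] {H : Type} [NormedAddCommGroup H] [InnerProductSpace 𝕜 H]

/-- Finite-dimensional subspaces. -/
abbrev FD (𝕜 : Type) [RCLike 𝕜] (H : Type) [NormedAddCommGroup H] [InnerProductSpace 𝕜 H] :=
  {E : Submodule 𝕜 H // FiniteDimensional 𝕜 E}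

instance (E : FD 𝕜 H) : FiniteDimensional 𝕜 E.1 := E.2

theorem hs {V : Submodule 𝕜 H} {u : ℕ → H}
    (hB : ∀ v ∈ V, ∀ s : Finset ℕ, ∑ i ∈ s, ‖inner 𝕜 (u i) v‖ ^ 2 ≤ ‖v‖ ^ 2) (E : FD 𝕜 H)
    (hE : E.1 ≤ V) (s : Finset ℕ) :
    ∑ i ∈ s, ‖E.1.starProjection (u i)‖ ^ 2 ≤ Module.finrank 𝕜 E.1 := by
  let b := stdOrthonormalBasis 𝕜 E.1
  have h1 : ∀ x : H, ‖E.1.starProjection x‖ ^ 2 = ∑ k, ‖inner 𝕜 x (b k : H)‖ ^ 2 := fun x => by
    rw [Submodule.starProjection_apply, ← Submodule.coe_norm, ← b.sum_sq_norm_inner_left]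
    simp only [Submodule.inner_orthogonalProjectionOnto_eq_of_mem_right]
  simp only [h1]
  rw [sum_comm]
  refine (sum_le_sum fun k _ => hB _ (hE (b k).2) s).trans ?_
  simp only [← Submodule.coe_norm, b.orthonormal.1, one_pow, sum_const, card_univ,
    Fintype.card_fin, nsmul_eq_mul, mul_one, le_refl]

/-- The invariant of the recursion. -/
structure Inv (V : Submodule 𝕜 H) (d p : ℕ) (x : FD 𝕜 H × (ℕ → ℝ)) : Prop where
  le : x.1.1 ≤ V
  rk : Module.finrank 𝕜 x.1.1 ≤ d * 16 ^ p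
  nn : ∀ i, 0 ≤ x.2 i
  sm : ∀ s : Finset ℕ, ∑ i ∈ s, x.2 i ≤ d * 16 ^ p / 8

/-- One step of the recursion. -/
structure Stp (u : ℕ → H) (p : ℕ) (x y : FD 𝕜 H × (ℕ → ℝ)) : Prop where
  le : x.1.1 ≤ y.1.1
  eq : ∀ i, y.2 i = 4 * x.2 i + ‖x.1.1.starProjection (u i)‖ ^ 2
  ap : ∀ i, i ≤ p ∨ 1 < y.2 i → ‖u i - y.1.1.starProjection (u i)‖ ≤ (1 / 2) ^ (p + 1)

theorem step {V : Submodule 𝕜 H} {u : ℕ → H} {d : ℕ} (hd : 1 ≤ d)
    (hu : ∀ i (η : ℝ), 0 < η → ∃ v ∈ V, ‖u i - v‖ ≤ η)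
    (hB : ∀ v ∈ V, ∀ s : Finset ℕ, ∑ i ∈ s, ‖inner 𝕜 (u i) v‖ ^ 2 ≤ ‖v‖ ^ 2) (p : ℕ)
    (x : FD 𝕜 H × (ℕ → ℝ)) (h : Inv V d p x) : ∃ y, Inv V d (p + 1) y ∧ Stp u p x y := by
  obtain ⟨ρ, hρ⟩ : ∃ ρ : ℕ → ℝ, ∀ i, ρ i = 4 * x.2 i + ‖x.1.1.starProjection (u i)‖ ^ 2 :=
    ⟨_, fun _ => rfl⟩
  have h0 : (0 : ℝ) ≤ d * 16 ^ p := by positivity
  have h1 : ∀ s : Finset ℕ, ∑ i ∈ s, ρ i ≤ 2 * (d * 16 ^ p) := fun s => by
    have e1 := hs hB x.1 h.le s
    have e2 : (Module.finrank 𝕜 x.1.1 : ℝ) ≤ d * 16 ^ p := by exact_mod_cast h.rk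
    have e3 := h.sm s
    simp only [hρ, sum_add_distrib, ← mul_sum]
    linarith
  have h2 : ∀ s : Finset ℕ, (∀ i ∈ s, 1 < ρ i) → s.card ≤ 2 * (d * 16 ^ p) := fun s hs => by
    have := (card_nsmul_le_sum s ρ 1 fun i hi => (hs i hi).le).trans (h1 s)
    rw [nsmul_eq_mul, mul_one] at this
    exact_mod_cast this
  have h3 : {i | 1 < ρ i}.Finite := by
    by_contra hi
    obtain ⟨s, hs, hc⟩ := Set.Infinite.exists_subset_card_eq hi (2 * (d * 16 ^ p) + 1)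
    have := h2 s fun i hi => hs hi
    omega
  choose v hv hv' using fun i => hu i ((1 / 2) ^ (p + 1)) (by positivity)
  let S := (range (p + 1) ∪ h3.toFinset).image v
  have hS : S.card ≤ p + 1 + 2 * (d * 16 ^ p) :=
    card_image_le.trans ((card_union_le _ _).trans (add_le_add (card_range _).le
      (h2 _ fun i hi => h3.mem_toFinset.1 hi)))
  refine ⟨(⟨x.1.1 ⊔ Submodule.span 𝕜 (S : Set H), inferInstance⟩, ρ),
    ⟨sup_le h.le (Submodule.span_le.2 fun y hy => ?_), ?_, fun i => ?_, fun s => ?_⟩,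
    ⟨le_sup_left, hρ, fun i hi => le_trans ?_ (hv' i)⟩⟩
  · obtain ⟨i, -, rfl⟩ := mem_image.1 hy
    exact hv i
  · refine (Submodule.finrank_add_le_finrank_add_finrank _ _).trans
      ((add_le_add h.rk ((finrank_span_finset_le_card S).trans hS)).trans ?_)
    have e1 : p < 16 ^ p := Nat.lt_pow_self (by norm_num)
    have e2 : 16 ^ p ≤ d * 16 ^ p := Nat.le_mul_of_pos_left _ hd
    rw [pow_succ 16 p, ← mul_assoc d]
    omega
  · have := h.nn i
    change 0 ≤ ρ i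
    rw [hρ]
    positivity
  · refine (h1 s).trans (le_of_eq ?_)
    ring
  · have hm : v i ∈ x.1.1 ⊔ Submodule.span 𝕜 (S : Set H) :=
      Submodule.mem_sup_right (Submodule.subset_span (mem_image_of_mem v (mem_union.2
        (hi.imp (fun e => mem_range.2 (Nat.lt_succ_of_le e)) h3.mem_toFinset.2))))
    rw [Submodule.starProjection_minimal]
    exact ciInf_le_of_le ⟨0, Set.forall_mem_range.2 fun _ => norm_nonneg _⟩ ⟨v i, hm⟩ le_rfl

end CHA

open CHA in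
theorem ch (𝕜 : Type) [RCLike 𝕜] : S_Ch 𝕜 := by
  intro H _ _ V E₀ u d hd hV hE hrk hu1 hu hB
  choose! f hf hf' using step hd hu hB
  let X : ℕ → FD 𝕜 H × (ℕ → ℝ) := fun p => Nat.rec (⟨E₀, hE⟩, 0) f p
  have hI : ∀ p, Inv V d p (X p) := fun p => by
    induction p with
    | zero => exact ⟨hV, hrk.trans (by simp), fun _ => le_rfl, fun s => by simp [X]; positivity⟩
    | succ p ih => exact hf p _ ih
  have hS : ∀ p, Stp u p (X p) (X (p + 1)) := fun p => hf' p _ (hI p)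
  have hm : Monotone fun p => (X p).1.1 := monotone_nat_of_le_succ fun p => (hS p).le
  have hρ : ∀ i, Monotone fun p => (X p).2 i := fun i => monotone_nat_of_le_succ fun p => by
    rw [(hS p).eq]
    nlinarith [(hI p).nn i, sq_nonneg ‖(X p).1.1.starProjection (u i)‖]
  have hg : ∀ i p r, (2 ^ r * ‖(X p).1.1.starProjection (u i)‖) ^ 2 ≤ (X (p + r + 1)).2 i := by
    intro i p r
    induction r with
    | zero =>
      rw [(hS _).eq]
      simpa using (hI p).nn i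
    | succ r ih =>
      rw [(hS _).eq, ← add_assoc, pow_succ 2 r]
      nlinarith [sq_nonneg ‖(X (p + r + 1)).1.1.starProjection (u i)‖]
  have hex : ∀ i, ∃ p, i ≤ p ∨ 1 < (X (p + 1)).2 i := fun i => ⟨i, Or.inl le_rfl⟩
  refine ⟨fun p => (X p).1.1.starProjection, fun i => Nat.find (hex i) + 1,
    fun p => Submodule.inner_starProjection_left_eq_right _,
    fun p q x hpq => Submodule.starProjection_eq_self_iff.2
      (hm hpq (Submodule.starProjection_apply_mem _ x)),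
    fun p x => (hI p).le (Submodule.starProjection_apply_mem _ x),
    fun p x hx => Submodule.starProjection_eq_self_iff.2 (hm (Nat.zero_le p) hx),
    fun p => ?_, fun p s => (hs hB _ (hI p).le s).trans (by exact_mod_cast (hI p).rk),
    fun i p hp => ?_, fun i p hp => ?_⟩
  · rw [Submodule.range_starProjection]
    infer_instance
  · rcases (Nat.lt_succ_iff.1 hp).eq_or_lt with e | e
    · rw [← e, Nat.add_sub_cancel_left]
      linarith [(X p).1.1.norm_starProjection_apply_le (u i), hu1 i]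
    · obtain ⟨r, hr⟩ := Nat.exists_eq_add_of_lt e
      have h1 := not_lt.1 (not_or.1 (Nat.find_min (hex i) (m := p + r) (by omega))).2
      have h2 := pow_le_one_iff_of_nonneg (by positivity) two_ne_zero |>.1 ((hg i p r).trans h1)
      rw [show Nat.find (hex i) + 1 - p = r + 2 by omega, pow_add, one_div, inv_pow,
        ← le_div_iff₀' (by positivity)] at *
      rw [one_div] at h2
      linarith
  · obtain ⟨q, rfl⟩ : ∃ q, p = q + 1 := ⟨p - 1, by omega⟩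
    have hq : Nat.find (hex i) ≤ q := by omega
    refine ((hS q).ap i ((Nat.find_spec (hex i)).imp (fun e => e.trans hq)
      fun e => e.trans_le (hρ i (Nat.succ_le_succ hq)))).trans ?_
    exact pow_le_pow_of_le_one (by norm_num) (by norm_num) (Nat.sub_le _ _)

end Pool.Agent.P.MP_c77070_an.Lor

end

/-! Block GF. -/

namespace Pool.Agent.P.MP_c77070_an.Lor

open Finset

namespace GFA

variable {𝕜 : Type} [RCLike 𝕜] {H : Type} [NormedAddCommGroup H] [InnerProductSpace 𝕜 H]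
  {V E₀ : Submodule 𝕜 H} {u : ℕ → H} {d : ℕ} {P : ℕ → H →L[𝕜] H} {j : ℕ → ℕ}

lemma pyth (h : Chain V E₀ u d P j) {p q : ℕ} (hpq : p ≤ q) (x : H) :
    ‖P q x - P p x‖ ^ 2 = ‖P q x‖ ^ 2 - ‖P p x‖ ^ 2 := by
  have e : inner 𝕜 (P q x) (P p x) = inner 𝕜 (P p x) (P p x) := by
    rw [h.sa q, h.nest p q x hpq, h.sa p, h.nest p p x le_rfl]
  rw [norm_sub_sq (𝕜 := 𝕜), e, inner_self_eq_norm_sq]
  ring

lemma norm_le (h : Chain V E₀ u d P j) (p : ℕ) (x : H) : ‖P p x‖ ≤ ‖x‖ := by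
  have e : inner 𝕜 (P p x) (P p x) = inner 𝕜 x (P p x) := by rw [h.sa p, h.nest p p x le_rfl]
  have h1 := re_inner_le_norm (𝕜 := 𝕜) x (P p x)
  rw [← e, inner_self_eq_norm_sq] at h1
  nlinarith [norm_nonneg x, norm_nonneg (P p x)]

lemma tele {A : ℕ → ℝ} (h1 : ∀ p, A p ≤ 1) (τ L : ℕ) :
    ∑ p ∈ range (L + τ), (A p - if τ ≤ p then A (p - τ) else 0) ≤ τ := by
  have a1 : ∑ p ∈ range (τ + L), (if τ ≤ p then A (p - τ) else 0) = ∑ p ∈ range L, A p := by
    rw [sum_range_add, sum_eq_zero fun p hp => if_neg (not_le.2 (mem_range.1 hp))]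
    simp
  have a2 := sum_le_card_nsmul (range τ) (fun x => A (L + x)) 1 fun x _ => h1 _
  rw [sum_sub_distrib, sum_range_add, add_comm L τ, a1]
  simpa using a2

end GFA

open GFA in
theorem gf (𝕜 : Type) [RCLike 𝕜] : S_GF 𝕜 := by
  intro H _ _ V E₀ u d P j h hB ξ hξ
  have h1 : ∀ (y : H), ‖inner 𝕜 y ξ‖ ≤ ‖y‖ := fun y =>
    (norm_inner_le_norm y ξ).trans (mul_le_of_le_one_right (norm_nonneg _) hξ)
  have h2 : ∀ i p, ‖inner 𝕜 (u i) (P p ξ)‖ ≤ ‖P p (u i)‖ := fun i p => by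
    rw [← h.sa]
    exact h1 _
  have h3 : ∀ p, ‖P p ξ‖ ^ 2 ≤ 1 := fun p =>
    pow_le_one₀ (norm_nonneg _) ((norm_le h p ξ).trans hξ)
  refine ⟨⟨fun _ _ => norm_nonneg _, fun _ => norm_nonneg _,
    fun p s => (hB _ (h.mem p ξ) s).trans (h3 p), fun i p hp => (h2 i p).trans (h.before i p hp),
    fun i p hp => ?_, fun τ => ?_⟩, h2⟩
  · have : inner 𝕜 (P p (u i)) ξ = inner 𝕜 (u i) ξ - inner 𝕜 (u i - P p (u i)) ξ := by
      rw [inner_sub_left, sub_sub_cancel]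
    rw [← h.sa, this]
    exact (norm_sub_le _ _).trans (add_le_add le_rfl ((h1 _).trans (h.after i p hp)))
  · set v : ℕ → H := fun p => P p ξ - if τ ≤ p then P (p - τ) ξ else 0 with hv
    have v1 : ∀ p, v p ∈ V := fun p => V.sub_mem (h.mem _ _) (by
      split_ifs
      exacts [h.mem _ _, V.zero_mem])
    have v2 : ∀ p, ‖v p‖ ^ 2 = ‖P p ξ‖ ^ 2 - if τ ≤ p then ‖P (p - τ) ξ‖ ^ 2 else 0 := fun p => by
      simp only [hv]
      split_ifs
      · exact pyth h (Nat.sub_le _ _) ξ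
      · simp
    refine ⟨fun i p => ‖inner 𝕜 (u i) (v p)‖, fun _ _ => norm_nonneg _, fun i p => ?_,
      fun s I => ?_⟩
    · simp only [hv]
      split_ifs
      · rw [inner_sub_right]
        exact norm_le_norm_sub_add _ _
      · simp
    · refine (sum_le_sum fun p _ => hB _ (v1 p) s).trans ((sum_le_sum_of_subset_of_nonneg
        (t := range (I.sup id + 1 + τ)) (fun p hp => mem_range.2 ?_)
        fun _ _ _ => sq_nonneg _).trans ?_)
      · have : p ≤ I.sup id := le_sup (f := id) hp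
        omega
      · simp only [v2]
        exact tele h3 τ _

end Pool.Agent.P.MP_c77070_an.Lor

/-! Block NET: a compact set lies in the absolutely convex hull of a null sequence. -/

noncomputable section

namespace Pool.Agent.P.MP_c77070_an.Lor

open Filter Topology Finset
open scoped Classical

namespace NETA

lemma enum {Y : Type} [NormedAddCommGroup Y] (G : ℕ → Set Y) (h : ∀ j, (G j).Finite)
    (h' : ∀ j, ∀ v ∈ G j, ‖v‖ ≤ (1 / 2) ^ j) : ∃ y : ℕ → Y, Tendsto y atTop (𝓝 0) ∧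
    (∀ n, ‖y n‖ ≤ 1) ∧ ∀ j, ∀ v ∈ G j, ∃ n, y n = v := by
  obtain ⟨e, he⟩ := Set.countable_iff_exists_injOn.1 (Set.countable_iUnion fun j => (h j).countable)
  have k : ∀ n, ∃ v : Y, (v = 0 ∨ (∃ j, v ∈ G j) ∧ e v = n) ∧ ∀ u ∈ ⋃ j, G j, e u = n → v = u :=
    fun n => by
      by_cases a : ∃ u ∈ ⋃ j, G j, e u = n
      · obtain ⟨u, a, b⟩ := a
        exact ⟨u, .inr ⟨Set.mem_iUnion.1 a, b⟩, fun u' c d => he a c (b.trans d.symm)⟩
      · exact ⟨0, .inl rfl, fun u c d => (a ⟨u, c, d⟩).elim⟩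
  choose y y1 y2 using k
  refine ⟨y, ?_, fun n => ?_, fun j v hv => ⟨e v, y2 _ v (Set.mem_iUnion.2 ⟨j, hv⟩) rfl⟩⟩
  · rw [← Nat.cofinite_eq_atTop, NormedAddGroup.tendsto_nhds_zero]
    intro ε hε
    obtain ⟨J, hJ⟩ := exists_pow_lt_of_lt_one hε (show (1 / 2 : ℝ) < 1 by norm_num)
    refine (((Set.finite_lt_nat J).biUnion fun j _ => h j).image e).subset fun n hn => ?_
    rcases y1 n with a | ⟨⟨j, a⟩, b⟩
    · exact (hn (by simpa [a] using hε)).elim
    · refine ⟨_, Set.mem_biUnion (show j < J from not_le.1 fun c => hn ?_) a, b⟩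
      exact ((h' j _ a).trans (pow_le_pow_of_le_one (by norm_num) (by norm_num) c)).trans_lt hJ
  · rcases y1 n with a | ⟨⟨j, a⟩, -⟩
    · simp [a]
    · exact (h' j _ a).trans (pow_le_one₀ (by norm_num) (by norm_num))

end NETA

theorem net (𝕜 : Type) [RCLike 𝕜] : S_Net 𝕜 := by
  intro Y _ _ K hK
  obtain ⟨R, hR, hK'⟩ := hK.isBounded.subset_ball_lt 0 0
  have k : ∀ j : ℕ, ∃ F : Set Y, F.Finite ∧ (j = 0 → F = {0}) ∧
      ∀ x ∈ K, ∃ u ∈ F, ‖x - u‖ ≤ R * (1 / 4) ^ j := fun j => by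
    rcases eq_or_ne j 0 with rfl | a
    · exact ⟨{0}, Set.finite_singleton _, fun _ => rfl, fun x hx => ⟨0, rfl, by
        simpa using (mem_ball_zero_iff.1 (hK' hx)).le⟩⟩
    · obtain ⟨F, -, b, c⟩ := finite_cover_balls_of_compact hK (e := R * (1 / 4) ^ j) (by positivity)
      refine ⟨F, b, fun e => (a e).elim, fun x hx => ?_⟩
      obtain ⟨u, d, e⟩ := Set.mem_iUnion₂.1 (c hx)
      exact ⟨u, d, (mem_ball_iff_norm.1 e).le⟩
  choose F F1 F2 F3 using k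
  let c : ℕ → ℝ := fun j => 2 ^ j / (2 * R)
  have c0 : ∀ j, 0 < c j := fun j => by positivity
  obtain ⟨y, y1, y2, y3⟩ := NETA.enum (fun j => Set.image2 (fun u v => (c j : 𝕜) • (u - v)) (F j)
    (F (j + 1)) ∩ {v | ‖v‖ ≤ (1 / 2) ^ j}) (fun j => ((F1 _).image2 _ (F1 _)).inter_of_left _)
    fun j v h => h.2
  refine ⟨y, 4 * R, y1, y2, fun T δ hT x hx => ?_⟩
  choose u u1 u2 using fun j => F3 j x hx
  have u0 : u 0 = 0 := by simpa [F2 0 rfl] using u1 0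
  have l : Tendsto u atTop (𝓝 x) := tendsto_iff_norm_sub_tendsto_zero.2 (squeeze_zero
    (fun _ => norm_nonneg _) (fun j => (norm_sub_rev _ _).trans_le (u2 j)) (by
      simpa only [mul_zero] using (tendsto_pow_atTop_nhds_zero_of_lt_one (r := (1 / 4 : ℝ)) (by norm_num)
        (by norm_num)).const_mul R))
  have := dist_le_of_le_geometric_two_of_tendsto₀ (C := 4 * R * δ) (f := fun j => T (u j))
    (fun j => ?_) ((T.continuous.tendsto x).comp l)
  · simpa [u0] using this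
  obtain ⟨n, hn⟩ := y3 j ((c j : 𝕜) • (u j - u (j + 1))) ⟨⟨_, u1 _, _, u1 _, rfl⟩, by
    have a : ‖u j - u (j + 1)‖ ≤ 2 * R * (1 / 4) ^ j := by
      have b := norm_sub_le_norm_sub_add_norm_sub (u j) x (u (j + 1))
      have d := u2 (j + 1)
      have e := u2 j
      have f : 0 ≤ R * (1 / 4) ^ j := by positivity
      rw [norm_sub_rev] at e
      rw [pow_succ] at d
      linarith
    rw [Set.mem_ofPred_eq, norm_smul, RCLike.norm_ofReal, abs_of_pos (c0 j)]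
    refine (mul_le_mul_of_nonneg_left a (c0 j).le).trans_eq ?_
    rw [show (1 / 2 : ℝ) = 2 * (1 / 4) by norm_num, mul_pow]
    simp only [c]
    field_simp⟩
  have a := hT n
  rw [hn, map_smul, norm_smul, RCLike.norm_ofReal, abs_of_pos (c0 j), map_sub,
    ← le_div_iff₀' (c0 j)] at a
  rw [dist_eq_norm]
  refine a.trans_eq ?_
  simp only [c]
  field_simp
  norm_num

end Pool.Agent.P.MP_c77070_an.Lor

end
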