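import Pool.Agent.P.MP_c77070_an.L.Defs

/-! Block GR: the trace estimate gives the approximation property. -/

noncomputable section

namespace Pool.Agent.P.MP_c77070_an.Lor

open Filter Topology Finset
open scoped Classical

namespace GRA

open scoped ENNReal

variable {𝕜 : Type} [RCLike 𝕜] {Y : Type} [NormedAddCommGroup Y] [NormedSpace 𝕜 Y]

/-- Bounded sequences. -/
abbrev W (Y : Type) [NormedAddCommGroup Y] := lp (fun _ : ℕ => Y) ∞

/-- Finite rank operators. -/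
def FR (𝕜 : Type) [RCLike 𝕜] (Y : Type) [NormedAddCommGroup Y] [NormedSpace 𝕜 Y] :
    Submodule 𝕜 (Y →L[𝕜] Y) where
  carrier := {T | FiniteDimensional 𝕜 (LinearMap.range (T : Y →ₗ[𝕜] Y))}
  add_mem' := fun {S T} hS hT => by
    simp only [Set.mem_ofPred_eq] at hS hT ⊢
    exact Submodule.finiteDimensional_of_le (LinearMap.range_add_le _ _)
  zero_mem' := by
    simp only [Set.mem_ofPred_eq]
    exact Submodule.finiteDimensional_of_le (S₂ := ⊥) (by rintro _ ⟨x, rfl⟩; rfl)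
  smul_mem' := fun c T hT => by
    simp only [Set.mem_ofPred_eq] at hT ⊢
    exact Submodule.finiteDimensional_of_le (LinearMap.range_smul_le_range _ c)

/-- Evaluation along the sequence. -/
def ev {y : ℕ → Y} (hy : ∀ n, ‖y n‖ ≤ 1) : (Y →L[𝕜] Y) →ₗ[𝕜] W Y where
  toFun T := ⟨fun n => T (y n), memℓp_infty ⟨‖T‖, Set.forall_mem_range.2 fun n =>
    T.le_opNorm_of_le (hy n) |>.trans_eq (mul_one _)⟩⟩
  map_add' _ _ := rfl
  map_smul' _ _ := rfl

theorem sum_single (s : Finset ℕ) (a : ℕ → Y) (i : ℕ) :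
    (∑ n ∈ s, lp.single ∞ n (a n) : W Y) i = if i ∈ s then a i else 0 := by
  simp only [lp.coeFn_sum, lp.coeFn_single, Finset.sum_apply, Finset.sum_pi_single]

/-- The coordinate functionals. -/
def co (Φ : StrongDual 𝕜 (W Y)) (n : ℕ) : StrongDual 𝕜 Y :=
  Φ ∘L lp.singleContinuousLinearMap 𝕜 (fun _ : ℕ => Y) ∞ n

theorem sum_co (Φ : StrongDual 𝕜 (W Y)) (s : Finset ℕ) (a : ℕ → Y) :
    ∑ n ∈ s, co Φ n (a n) = Φ (∑ n ∈ s, lp.single ∞ n (a n)) := by
  rw [map_sum]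
  rfl

theorem summable_co (Φ : StrongDual 𝕜 (W Y)) : Summable fun n => ‖co Φ n‖ := by
  have h : ∀ g : StrongDual 𝕜 Y, ∃ (x : Y) (r : ℝ), ‖x‖ ≤ 1 ∧ g x = r ∧ ‖g‖ ≤ 2 * r := fun g => by
    by_cases hg : g = 0
    · exact ⟨0, 0, by simp, by simp, by simp [hg]⟩
    obtain ⟨x, hx, hx'⟩ := g.exists_lt_apply_of_lt_opNorm (half_lt_self (norm_pos_iff.2 hg))
    obtain ⟨c, hc, hc'⟩ := RCLike.exists_norm_eq_mul_self (g x)
    refine ⟨c • x, ‖g x‖, ?_, by rw [map_smul, smul_eq_mul, hc'], by linarith⟩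
    rw [norm_smul, hc, one_mul]
    exact hx.le
  choose x r hx hr hr' using fun n => h (co Φ n)
  refine summable_of_sum_le (c := 2 * ‖Φ‖) (fun _ => norm_nonneg _) fun s => ?_
  have h1 : ‖(∑ n ∈ s, lp.single ∞ n (x n) : W Y)‖ ≤ 1 :=
    lp.norm_le_of_forall_le zero_le_one fun i => by
      rw [sum_single]
      split_ifs
      exacts [hx i, by simp]
  have h2 := Φ.le_opNorm_of_le h1
  rw [← sum_co, sum_congr rfl fun n _ => hr n, ← RCLike.ofReal_sum, RCLike.norm_ofReal] at h2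
  refine (sum_le_sum fun n _ => hr' n).trans ?_
  rw [← mul_sum]
  linarith [le_abs_self (∑ n ∈ s, r n)]

theorem tendsto_co (Φ : StrongDual 𝕜 (W Y)) (a : W Y) (ha : Tendsto a atTop (𝓝 0)) :
    Tendsto (fun k => ∑ n ∈ range k, co Φ n (a n)) atTop (𝓝 (Φ a)) := by
  simp only [sum_co]
  refine (Φ.continuous.tendsto a).comp (Metric.tendsto_atTop.2 fun ε hε => ?_)
  obtain ⟨N, hN⟩ := Metric.tendsto_atTop.1 ha (ε / 2) (half_pos hε)
  refine ⟨N, fun k hk => ?_⟩
  rw [dist_eq_norm]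
  refine (lp.norm_le_of_forall_le (half_pos hε).le fun i => ?_).trans_lt (half_lt_self hε)
  rw [lp.coeFn_sub, Pi.sub_apply, sum_single]
  split_ifs with h
  · simpa using (half_pos hε).le
  · simpa using (hN i (hk.trans (not_lt.1 (mt mem_range.2 h)))).le

theorem eq_zero {C : ℝ} (hC : TrB 𝕜 Y C) {y : ℕ → Y} (hy : ∀ n, ‖y n‖ ≤ 1)
    (hy0 : Tendsto y atTop (𝓝 0)) (Φ : StrongDual 𝕜 (W Y))
    (hΦ : ∀ T ∈ FR 𝕜 Y, Φ (ev hy T) = 0) : Φ (ev hy (1 : Y →L[𝕜] Y)) = 0 := by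
  have hs := summable_co Φ
  have h1 : ∀ m, ‖∑ n ∈ range m, co Φ n (y n)‖ ≤ C * ∑' n, ‖co Φ (n + m)‖ := fun m => by
    obtain ⟨Q, hQ, hF, hb⟩ := hC (fun n => y (n + m)) (fun n => co Φ (n + m)) _
      ((range m).image y) (fun n => hy _) fun t =>
        ((summable_nat_add_iff m).2 hs).sum_le_tsum t fun _ _ => norm_nonneg _
    have h2 : Tendsto (fun k => ∑ n ∈ range k, co Φ n (Q (y n))) atTop (𝓝 (Φ (ev hy Q))) :=
      tendsto_co Φ (ev hy Q) ((Q.continuous.tendsto' 0 0 (map_zero Q)).comp hy0)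
    rw [hΦ Q hQ, ← tendsto_add_atTop_iff_nat m] at h2
    have h3 := (h2.sub_const (∑ n ∈ range m, co Φ n (y n))).norm
    rw [zero_sub, norm_neg] at h3
    refine le_of_tendsto' h3 fun k => le_trans ?_ (hb (range k))
    rw [add_comm k m, sum_range_add, sum_congr rfl fun n hn =>
      congrArg (co Φ n) (hF (y n) (mem_image_of_mem y hn)), add_sub_cancel_left]
    simp only [add_comm m]
    exact norm_sum_le _ _
  have h2 := (tendsto_sum_nat_add fun n => ‖co Φ n‖).const_mul C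
  rw [mul_zero] at h2
  exact norm_le_zero_iff.1 (le_of_tendsto_of_tendsto'
    (tendsto_co Φ (ev hy (1 : Y →L[𝕜] Y)) hy0).norm h2 h1)

end GRA

open GRA in
theorem gr (𝕜 : Type) [RCLike 𝕜] : S_Gr 𝕜 := by
  intro hN Y _ _ C hC K hK ε hε
  obtain ⟨y, B, hy0, hy, hB⟩ := hN Y K hK
  let S := (FR 𝕜 Y).map (ev hy)
  obtain ⟨g, -, hg⟩ := exists_dual_vector'' 𝕜 (S.mkQL (ev hy (1 : Y →L[𝕜] Y)))
  have h1 := eq_zero hC hy hy0 (g ∘L S.mkQL) fun T hT => by
    have : S.mkQL (ev hy T) = 0 := (Submodule.Quotient.mk_eq_zero S).2 ⟨T, hT, rfl⟩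
    rw [ContinuousLinearMap.comp_apply, this, map_zero]
  rw [ContinuousLinearMap.comp_apply, hg, RCLike.ofReal_eq_zero] at h1
  have hδ : 0 < ε / (|B| + 1) := by positivity
  obtain ⟨m, hm, hm'⟩ := Submodule.Quotient.norm_mk_lt (S.mkQL (ev hy (1 : Y →L[𝕜] Y))) hδ
  rw [h1, zero_add] at hm'
  obtain ⟨T, hT, e⟩ := (Submodule.Quotient.eq S).1 hm.symm
  refine ⟨T, hT, fun x hx => (hB (T - 1) (ε / (|B| + 1)) (fun n => ?_) x hx).trans_lt ?_⟩
  · have e' : T (y n) = y n - m n := congrArg (fun a : W Y => a n) e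
    rw [sub_apply, e', one_apply_eq_self, sub_sub_cancel_left, norm_neg]
    exact (lp.norm_apply_le_norm ENNReal.top_ne_zero m n).trans hm'.le
  · rw [mul_div_assoc', div_lt_iff₀ (by positivity)]
    nlinarith [le_abs_self B]

end Pool.Agent.P.MP_c77070_an.Lor

end

/-! Block LOC: explicit local data. -/

noncomputable section

namespace Pool.Agent.P.MP_c77070_an.Lor

open Finset

namespace LOCA

/-- The rotation matrix with the given cosine and sine. -/
def rot (c s : ℝ) : Fin 2 → Fin 2 → ℝ := ![![c, -s], ![s, c]]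

/-- The first family. -/
def a : Fin 4 → Fin 2 → Fin 2 → ℝ :=
  ![rot 1 0, rot (3 / 5) (4 / 5), rot (4 / 5) (3 / 5), rot (12 / 13) (5 / 13)]

/-- The second family. -/
def b : Fin 4 → Fin 2 → Fin 2 → ℝ :=
  ![rot (15 / 17) (8 / 17), rot (13 / 85) (84 / 85), rot (36 / 85) (77 / 85),
    rot (140 / 221) (171 / 221)]

/-- The signs. -/
def t : Fin 4 → Fin 2 → ℝ := ![![1, 1], ![1, -1], ![-1, 1], ![-1, -1]]

end LOCA

open LOCA in
theorem loc : S_Loc := by
  refine ⟨⟨a, b, t, rot (15 / 17) (8 / 17), 9995 / 10000, by norm_num, by norm_num,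
    ?_, ?_, ?_, ?_, ?_, ?_, ?_, ?_, ?_, ?_, ?_⟩⟩
  all_goals
    simp only [Fin.forall_fin_succ, Fin.sum_univ_succ, abs_le, IsEmpty.forall_iff, and_true, a, b,
      t, rot, Matrix.cons_val_succ, Matrix.cons_val_zero]
    norm_num [Fin.ext_iff]

end Pool.Agent.P.MP_c77070_an.Lor

end

/-! Products of local data form a Davie system. -/

namespace Pool.Agent.P.MP_c77070_an.Lor

open Finset

namespace DAVA

lemma sp {k : ℕ} (c : ℝ) (F G : Fin k → Fin 2 → ℝ) :
    ∑ u : Fin k → Fin 2, c * ((∏ t, F t (u t)) * ∏ t, G t (u t)) = c * ∏ t, ∑ o, F t o * G t o := by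
  simp only [← prod_mul_distrib]
  rw [← mul_sum, Fintype.prod_sum fun t o => F t o * G t o]

lemma sp' {k : ℕ} (c : Fin 2 → ℝ) (F G : Fin k → Fin 2 → ℝ) :
    ∑ u : Fin (k + 1) → Fin 2, c (u 0) * ((∏ t, F t (u t.succ)) * ∏ t, G t (u t.succ)) =
      (∑ o, c o) * ∏ t, ∑ o, F t o * G t o := by
  rw [← (Fin.consEquiv fun _ => Fin 2).sum_comp, Fintype.sum_prod_type, sum_mul]
  exact sum_congr rfl fun o _ => sp (c o) F G

lemma pd {k : ℕ} (i i' : Fin k → Fin 2) :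
    ∏ t, (if i t = i' t then (1 : ℝ) else 0) = if i = i' then 1 else 0 := by
  simp only [prod_boole, mem_univ, true_imp_iff, funext_iff]

lemma bd {k : ℕ} {c θ : ℝ} {F : Fin k → ℝ} (hc : |c| ≤ 1) (h : ∀ t, |F t| ≤ θ) :
    |c * ∏ t, F t| ≤ θ ^ k := by
  rw [abs_mul, abs_prod]
  refine (mul_le_of_le_one_left (prod_nonneg fun _ _ => abs_nonneg _) hc).trans ?_
  simpa using prod_le_prod (s := univ) (fun t _ => abs_nonneg (F t)) fun t _ => h t

end DAVA

open DAVA in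
theorem dav : S_Dav := by
  rintro ⟨L⟩
  have t1 : ∀ r o, |L.t r o| ≤ 1 := fun r o => abs_le_one_iff_mul_self_le_one.2
    (by rw [← sq, L.tsq])
  have a1 : ∀ r x o, |L.a r x o| ≤ 1 := fun r x o => abs_le_one_iff_mul_self_le_one.2 (by
    have := L.ra r x x
    rw [if_pos rfl] at this
    exact this ▸ single_le_sum (f := fun u => L.a r x u * L.a r x u)
      (fun _ _ => mul_self_nonneg _) (mem_univ o))
  have two : ∀ f g : Fin 2 → ℝ, (∀ o, |f o| ≤ 1) → (∀ o, |g o| ≤ 1) →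
      |∑ o, 1 / 4 * (f o * g o)| ≤ 1 := fun f g hf hg => by
    have := fun o => abs_le.1 ((abs_mul (f o) (g o)).trans_le
      (mul_le_one₀ (hf o) (abs_nonneg _) (hg o)))
    rw [Fin.sum_univ_two, abs_le]
    constructor <;> linarith [this 0, this 1]
  have tt : ∀ o o', ∑ r, 1 / 4 * (L.t r o * L.t r o') = if o = o' then 1 else 0 := fun o o' => by
    rw [← mul_sum]
    have := L.torth
    fin_cases o <;> fin_cases o' <;> simp [← sq, L.tsq, this, mul_comm (L.t _ 1)]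
  have off : ∀ {k : ℕ} (c : ℝ) {x y : Fin k → Fin 2}, x ≠ y →
      |c * ∏ t, if x t = y t then (1 : ℝ) else 0| ≤ L.θ ^ k := fun c x y h => by
    rw [pd, if_neg h, mul_zero, abs_zero]
    exact pow_nonneg L.θ0 _
  refine ⟨{
    G := fun k => Fin 4 × (Fin k → Fin 2)
    I := fun k => Fin k → Fin 2
    α := fun k g u => 1 / 2 * ∏ t, L.a g.1 (g.2 t) (u t)
    γ := fun k g u => 1 / 2 * L.t g.1 (u 0) * ∏ t, L.a' g.1 (g.2 t) (u t.succ)
    θ := L.θ, θ0 := L.θ0, θ1 := L.θ1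
    card := fun k => by simp
    c1 := fun k i i' => ?_, c2 := fun k i i' => ?_, c3 := fun k i i' => ?_
    r1 := fun k g => ?_, r2 := fun k g => ?_
    b1 := fun k g h e => ?_, b2 := fun k g h e => ?_, b3 := fun k g h => ?_ }⟩
  · rw [Fintype.sum_prod_type, sum_congr rfl fun r _ => (sum_congr rfl fun x _ => by ring).trans
      (sp (1 / 4) (fun t o => L.a r o (i t)) fun t o => L.a r o (i' t))]
    simp only [L.ca, pd]
    split_ifs <;> simp
  · rw [Fintype.sum_prod_type, sum_congr rfl fun r _ => (sum_congr rfl fun x _ => by ring).trans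
      (sp (1 / 4 * (L.t r (i 0) * L.t r (i' 0))) (fun t o => L.a' r o (i t.succ))
        fun t o => L.a' r o (i' t.succ))]
    simp only [L.ca', ← sum_mul, tt]
    rw [← Fin.prod_univ_succ fun t => if i t = i' t then (1 : ℝ) else 0, pd]
    congr
  · rw [Fintype.sum_prod_type, sum_congr rfl fun r _ => (sum_congr rfl fun x _ => by ring).trans
      (sp (1 / 4 * L.t r (i' 0)) (fun t o => L.a r o (i t)) fun t o => L.a' r o (i' t.succ))]
    simp only [L.caa', ← sum_mul, ← mul_sum, L.tsum, mul_zero, zero_mul]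
  · rw [(sum_congr rfl fun x _ => by ring).trans
      (sp (1 / 4) (fun t => L.a g.1 (g.2 t)) fun t => L.a g.1 (g.2 t))]
    simp [L.ra]
  · rw [(sum_congr rfl fun x _ => by ring).trans (sp' (fun o => 1 / 4 * L.t g.1 o ^ 2)
      (fun t => L.a' g.1 (g.2 t)) fun t => L.a' g.1 (g.2 t))]
    simp only [L.ra', L.tsq]
    norm_num
  · rw [(sum_congr rfl fun x _ => by ring).trans
      (sp (1 / 4) (fun t => L.a g.1 (g.2 t)) fun t => L.a h.1 (h.2 t))]
    by_cases r : g.1 = h.1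
    · simp only [r, L.ra]
      exact off _ fun q => e (Prod.ext r q)
    · exact bd (by norm_num [abs_le]) fun t => L.ba _ _ _ _ r
  · rw [(sum_congr rfl fun x _ => by ring).trans (sp' (fun o => 1 / 4 * (L.t g.1 o * L.t h.1 o))
      (fun t => L.a' g.1 (g.2 t)) fun t => L.a' h.1 (h.2 t))]
    by_cases r : g.1 = h.1
    · simp only [r, L.ra']
      exact off _ fun q => e (Prod.ext r q)
    · exact bd (two _ _ (t1 _) (t1 _)) fun t => L.ba' _ _ _ _ r
  · rw [(sum_congr rfl fun x _ => by rw [Fin.prod_univ_succ]; ring).trans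
      (sp' (fun o => 1 / 4 * (L.t g.1 o * L.a h.1 (h.2 0) o))
        (fun t => L.a' g.1 (g.2 t)) fun t => L.a h.1 (h.2 t.succ))]
    exact bd (two _ _ (t1 _) (a1 _ _)) fun t => L.baa' _ _ _ _

end Pool.Agent.P.MP_c77070_an.Lor

/-! Algebra of the Davie chain. -/

namespace Pool.Agent.P.MP_c77070_an.Lor

open Finset Filter

namespace DAA

variable {𝕜 : Type} [RCLike 𝕜] {X : Type} [NormedAddCommGroup X] [NormedSpace 𝕜 X]

lemma sw {G I : Type} [Fintype G] [Fintype I] (a : G → ℝ) (b : G → I → ℝ) (c : ℝ) (v : I → X) :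
    ∑ h, (a h : 𝕜) • ∑ i, ((c * b h i : ℝ) : 𝕜) • v i =
      ∑ i, ((c * ∑ h, a h * b h i : ℝ) : 𝕜) • v i := by
  simp only [smul_sum, smul_smul]
  rw [sum_comm]
  refine sum_congr rfl fun i _ => ?_
  rw [← sum_smul, mul_sum]
  push_cast
  exact congrArg (· • v i) (sum_congr rfl fun h _ => by ring)

variable (D : Dav) (e : ∀ k, D.G k → X)

lemma sa (k : ℕ) (i : D.I k) :
    ∑ h, (D.α k h i : 𝕜) • D.y 𝕜 e k h = (((1 / 2) ^ k : ℝ) : 𝕜) • D.Φ 𝕜 e k i := by
  simp only [Dav.y, smul_sub, sum_sub_distrib, sw, D.c1, D.c3]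
  classical simp [apply_ite ((↑) : ℝ → 𝕜), sum_ite_eq]

lemma sb (k : ℕ) (i : D.I (k + 1)) :
    ∑ h, (D.γ k h i : 𝕜) • D.y 𝕜 e k h = -(((1 / 2) ^ (k + 1) : ℝ) : 𝕜) • D.Φ 𝕜 e (k + 1) i := by
  simp only [Dav.y, smul_sub, sum_sub_distrib, sw, D.c2, mul_comm (D.γ k _ i) (D.α k _ _), D.c3]
  classical simp [apply_ite ((↑) : ℝ → 𝕜), sum_ite_eq]

end DAA

open DAA in
theorem da (𝕜 : Type) [RCLike 𝕜] : S_DA 𝕜 := by
  classical
  intro X _ _ D e f h1 h2
  constructor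
  · intro l h
    filter_upwards [eventually_ge_atTop (l + 2)] with n hn
    let U : X →ₗ[𝕜] X := ∑ k ∈ range n, ∑ g, (f k g : X →ₗ[𝕜] 𝕜).smulRight (D.y 𝕜 e k g)
    have hU : ∀ v, U v = ∑ k ∈ range n, ∑ g, f k g v • D.y 𝕜 e k g := fun v => by simp [U]
    have he : ∀ k < n, ∀ g, U (e k g) = D.y 𝕜 e k g := fun k hk g => by
      rw [hU, sum_eq_single_of_mem k (mem_range.2 hk) fun j _ hj => by simp [h2 j _ k g hj]]
      simp [h1]
    have hΦ : ∀ k < n, ∀ i, U (D.Φ 𝕜 e k i) = 0 := fun k hk i => by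
      cases k with
      | zero => exact map_zero U
      | succ k =>
        simp only [Dav.Φ, map_add, map_sum, map_smul, he k (by omega), he _ hk]
        rw [sa, sb, neg_smul, neg_add_cancel]
    rw [← hU]
    simp only [Dav.y, map_sub, map_sum, map_smul, hΦ l (by omega), hΦ (l + 1) (by omega),
      smul_zero, sum_const_zero, sub_self]
  · have a1 : ∀ k g i, f k g (D.Φ 𝕜 e (k + 1) i) = D.γ k g i := fun k g i => by
      simp [Dav.Φ, h1, h2 k g (k + 1) _ (Nat.succ_ne_self k).symm]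
    have a2 : ∀ k g i, f (k + 1) g (D.Φ 𝕜 e (k + 1) i) = D.α (k + 1) g i := fun k g i => by
      simp [Dav.Φ, h1, h2 (k + 1) g k _ (Nat.succ_ne_self k)]
    have a3 : ∀ {I : Type} [Fintype I] (c : ℝ) (a : I → ℝ),
        ∑ i, ((c * a i : ℝ) : 𝕜) * (a i : 𝕜) = ((c * ∑ i, a i ^ 2 : ℝ) : 𝕜) := fun c a => by
      rw [mul_sum]
      push_cast
      exact sum_congr rfl fun i _ => by ring
    intro n hn
    induction n, hn using Nat.le_induction with
    | base =>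
      simp only [sum_range_one, Dav.y, map_sub, map_sum, map_smul, a1, smul_eq_mul, a3, D.r2,
        show ∀ i, D.Φ 𝕜 e 0 i = 0 from fun _ => rfl, map_zero, mul_zero, sum_const_zero,
        sum_const, card_univ, D.card, nsmul_eq_mul]
      push_cast
      norm_num
    | succ n hn ih =>
      obtain ⟨n, rfl⟩ : ∃ m, n = m + 1 := ⟨n - 1, by omega⟩
      rw [sum_range_succ, ih, add_eq_left]
      refine sum_eq_zero fun g _ => ?_
      simp only [Dav.y, map_sub, map_sum, map_smul, a1, a2, smul_eq_mul, a3, D.r1, D.r2]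
      push_cast
      ring

end Pool.Agent.P.MP_c77070_an.Lor

/-! Norms in the Davie chain. -/

noncomputable section

namespace Pool.Agent.P.MP_c77070_an.Lor

open Filter Topology Finset
open scoped Classical

namespace DNA

theorem sq_sum {G I : Type} [Fintype G] [Fintype I] (A : G → I → ℝ)
    (h : ∀ i i', ∑ g, A g i * A g i' = if i = i' then 1 else 0) (c : I → ℝ) :
    ∑ g, (∑ i, c i * A g i) ^ 2 = ∑ i, c i ^ 2 := by
  have e : ∀ g, (∑ i, c i * A g i) ^ 2 = ∑ i, ∑ i', c i * c i' * (A g i * A g i') := fun g => by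
    rw [sq, sum_mul_sum]
    exact sum_congr rfl fun i _ => sum_congr rfl fun i' _ => by ring
  simp only [e]
  rw [sum_comm]
  refine sum_congr rfl fun i _ => ?_
  rw [sum_comm]
  simp only [← mul_sum, h, mul_ite, mul_one, mul_zero, sum_ite_eq, mem_univ, if_true, sq]

theorem swap {𝕜 : Type} [RCLike 𝕜] {X : Type} [NormedAddCommGroup X] [NormedSpace 𝕜 X]
    {G I : Type} [Fintype G] [Fintype I] (A : G → I → ℝ) (c : I → ℝ) (s : ℝ) (e : G → X) :
    ∑ i, ((s * c i : ℝ) : 𝕜) • ∑ h, ((A h i : ℝ) : 𝕜) • e h =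
      ∑ h, ((s * ∑ i, c i * A h i : ℝ) : 𝕜) • e h := by
  simp only [smul_sum, smul_smul]
  rw [sum_comm]
  refine sum_congr rfl fun h _ => ?_
  rw [← sum_smul, mul_sum]
  push_cast
  simp only [mul_assoc]

theorem root {x K a b s : ℝ} (hK : 0 ≤ K) (ha : 0 ≤ a) (hb : 0 ≤ b) (hs : 0 ≤ s) {V : ℝ}
    (hV : V ≤ s ^ 2) (h : x ^ 2 ≤ K * (2 * s * a) ^ 2 + b * V) : x ≤ s * (2 * (√K * a) + √b) := by
  have h1 := Real.sq_sqrt hK
  have h2 := Real.sq_sqrt hb
  have h3 : 0 ≤ s ^ 2 * (√K * a * √b) := by positivity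
  have h4 := mul_le_mul_of_nonneg_left hV hb
  refine abs_le_of_sq_le_sq' ?_ (by positivity) |>.2
  calc x ^ 2 ≤ √K ^ 2 * (2 * s * a) ^ 2 + √b ^ 2 * s ^ 2 := by rw [h1, h2]; linarith
    _ ≤ _ := by nlinarith

theorem summ_div {F : ℕ → ℝ} (h0 : ∀ m, 0 ≤ F m) (h : Summable F) {r : ℕ} (hr : 0 < r) :
    Summable fun k => F (k / r) := by
  have e : ∀ n, ∑ k ∈ range (r * n), F (k / r) = r * ∑ m ∈ range n, F m := fun n => by
    induction n with
    | zero => simp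
    | succ n ih =>
      rw [Nat.mul_succ, sum_range_add, ih, sum_range_succ,
        sum_congr (s₁ := range r) rfl (g := fun _ => F n) fun x hx => by
          rw [Nat.mul_add_div hr, Nat.div_eq_of_lt (mem_range.1 hx), add_zero]]
      simp [mul_add]
  refine summable_of_sum_range_le (c := r * ∑' m, F m) (fun _ => h0 _) fun n => ?_
  refine (sum_le_sum_of_subset_of_nonneg (range_mono (Nat.le_mul_of_pos_left n hr))
    fun _ _ _ => h0 _).trans ?_
  rw [e]
  exact mul_le_mul_of_nonneg_left (h.sum_le_tsum _ fun _ _ => h0 _) (Nat.cast_nonneg r)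

theorem one {𝕜 : Type} [RCLike 𝕜] {X : Type} [NormedAddCommGroup X] [NormedSpace 𝕜 X] (D : Dav)
    (e : ∀ k, D.G k → X) (w : ℕ → ℝ) (hw : ∀ n, 0 ≤ w n)
    (h : ∀ (k : ℕ) (v : D.G k → ℝ) (K : ℕ) (S : ℝ), (∀ h, |v h| ≤ S) →
      ‖∑ h, ((v h : ℝ) : 𝕜) • e k h‖ ^ 2 ≤ K * S ^ 2 + w K * ∑ h, v h ^ 2)
    (k K : ℕ) (g : D.G (k + 1)) :
    ‖D.y 𝕜 e (k + 1) g‖ ≤ 3 * ((1 / 2) ^ (k + 1) * (2 * (√K * D.θ ^ k) + √(w K))) := by
  have t0 := D.θ0
  have t1 : D.θ ^ (k + 1) ≤ D.θ ^ k := pow_le_pow_of_le_one t0 D.θ1.le (Nat.le_succ k)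
  have t2 : 0 ≤ D.θ ^ k := by positivity
  rw [Dav.y, pow_succ (1 / 2 : ℝ) (k + 1)]
  have s0 : (0 : ℝ) < (1 / 2) ^ (k + 1) := by positivity
  generalize (1 / 2 : ℝ) ^ (k + 1) = s at *
  have st : 0 ≤ s * D.θ ^ k := by positivity
  have key : ∀ (l : ℕ) (v : D.G l → ℝ), (∀ h, |v h| ≤ 2 * s * D.θ ^ k) → ∑ h, v h ^ 2 ≤ s ^ 2 →
      ‖∑ h, ((v h : ℝ) : 𝕜) • e l h‖ ≤ s * (2 * (√K * D.θ ^ k) + √(w K)) := fun l v h1 h2 =>
    root (Nat.cast_nonneg K) t2 (hw K) s0.le h2 (h l v K _ h1)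
  have ab : ∀ {c x : ℝ}, 0 ≤ c → |x| ≤ D.θ ^ k → |c * x| ≤ c * D.θ ^ k := fun hc hx => by
    rw [abs_mul, abs_of_nonneg hc]
    exact mul_le_mul_of_nonneg_left hx hc
  have s2 : 0 ≤ s ^ 2 := by positivity
  have k1 := key k (fun h => s * ∑ i, D.α (k + 1) g i * D.γ k h i) (fun h => by
    have := ab s0.le (D.b3 k h g)
    simp only [mul_comm (D.γ k h _)] at this
    linarith) (by
    simp only [mul_pow]
    rw [← mul_sum, sq_sum _ (D.c2 k), D.r1]
    linarith)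
  have k2 := key (k + 1) (fun h => s * ∑ i, D.α (k + 1) g i * D.α (k + 1) h i -
      s * (1 / 2) * ∑ i, D.γ (k + 1) g i * D.γ (k + 1) h i) (fun h => by
    by_cases hg : g = h
    · subst hg
      simp only [← sq]
      rw [D.r1, D.r2, show s * (1 / 4) - s * (1 / 2) * (1 / 2) = 0 by ring, abs_zero]
      linarith
    · have a1 := ab s0.le ((D.b1 _ g h hg).trans t1)
      have a2 := ab (show 0 ≤ s * (1 / 2) by positivity) ((D.b2 _ g h hg).trans t1)
      linarith [abs_sub (s * ∑ i, D.α (k + 1) g i * D.α (k + 1) h i)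
        (s * (1 / 2) * ∑ i, D.γ (k + 1) g i * D.γ (k + 1) h i)]) (by
    have a1 : ∀ p q : ℝ, (s * p - s * (1 / 2) * q) ^ 2 ≤ 2 * s ^ 2 * p ^ 2 + s ^ 2 / 2 * q ^ 2 :=
      fun p q => by nlinarith [sq_nonneg (s * p + s * (1 / 2) * q)]
    refine (sum_le_sum fun h _ => a1 _ _).trans ?_
    rw [sum_add_distrib, ← mul_sum, ← mul_sum, sq_sum _ (D.c1 _), sq_sum _ (D.c2 _), D.r1, D.r2]
    linarith)
  have k3 := key (k + 2) (fun h => s * (1 / 2) * ∑ i, D.γ (k + 1) g i * D.α (k + 2) h i)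
    (fun h => by
    have := ab (show 0 ≤ s * (1 / 2) by positivity) ((D.b3 _ g h).trans t1)
    linarith) (by
    simp only [mul_pow]
    rw [← mul_sum, sq_sum _ (D.c1 _), D.r2]
    linarith)
  simp only [RCLike.ofReal_sub, sub_smul, sum_sub_distrib] at k2
  simp only [Dav.Φ, smul_add, sum_add_distrib, swap]
  rw [show ∀ a b c d : X, a + b - (c + d) = a + (b - c) - d from fun a b c d => by abel]
  refine (norm_sub_le _ _).trans ((add_le_add (norm_add_le _ _) le_rfl).trans ?_)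
  linarith

end DNA

theorem dn (𝕜 : Type) [RCLike 𝕜] : S_DN 𝕜 := by
  intro X _ _ D e w hw h hs
  obtain ⟨r, hr⟩ := exists_pow_lt_of_lt_one (show (0 : ℝ) < 1 / 2 by norm_num) D.θ1
  have r0 : 0 < r := Nat.pos_of_ne_zero fun h0 => by
    rw [h0] at hr
    norm_num at hr
  have s1 : Summable fun m : ℕ => 2 * (3 / 4 : ℝ) ^ m + √(w (2 ^ m)) :=
    ((summable_geometric_of_lt_one (by norm_num) (by norm_num)).mul_left 2).add hs
  have s2 := (DNA.summ_div (fun m => by positivity) s1 r0).mul_left 12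
  refine (summable_nat_add_iff 1).1 (Summable.of_nonneg_of_le
    (fun k => sum_nonneg fun _ _ => norm_nonneg _) (fun k => ?_) s2)
  refine (sum_le_card_nsmul _ _ _ fun g _ => DNA.one D e w hw h k (2 ^ (k / r)) g).trans ?_
  have a1 : D.θ ^ k ≤ (1 / 2) ^ (k / r) :=
    (pow_le_pow_of_le_one D.θ0 D.θ1.le (Nat.mul_div_le k r)).trans (by
      rw [pow_mul]
      exact pow_le_pow_left₀ (pow_nonneg D.θ0 r) hr.le _)
  have a2 : √((2 ^ (k / r) : ℕ) : ℝ) ≤ (3 / 2) ^ (k / r) := by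
    refine Real.sqrt_le_iff.2 ⟨by positivity, ?_⟩
    rw [← pow_mul, mul_comm, pow_mul]
    push_cast
    exact pow_le_pow_left₀ (by norm_num) (by norm_num) _
  have a3 := mul_le_mul a2 a1 (pow_nonneg D.θ0 k) (by positivity)
  rw [← mul_pow, show (3 / 2 * (1 / 2) : ℝ) = 3 / 4 by norm_num] at a3
  have a4 : (2 : ℝ) ^ (k + 1) * (1 / 2) ^ (k + 1) = 1 := by
    rw [← mul_pow]
    norm_num
  rw [card_univ, D.card, nsmul_eq_mul, Nat.cast_mul, Nat.cast_pow,
    show ∀ a b c : ℝ, ((4 : ℕ) : ℝ) * a * (3 * (b * c)) = 12 * (a * b) * c from fun a b c => by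
      push_cast
      ring, Nat.cast_ofNat, a4]
  linarith

end Pool.Agent.P.MP_c77070_an.Lor

end
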