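import Pool.Agent.P.MP_c77070_an.Crit

/-! Interface statements for: the Lorentz sequence space `d(w,2)` has the hereditary
approximation property iff `∑ √(w (2^j))` diverges. Plan: team store, c77070_lorentz.md. -/

noncomputable section

namespace Pool.Agent.P.MP_c77070_an.Lor

open Filter Topology Finset
open scoped Classical

/-- The double exponential scale. -/
def N (m : ℕ) : ℕ := 2 ^ (2 ^ m)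

/-- Admissible weights. -/
structure Wt (w : ℕ → ℝ) : Prop where
  anti : Antitone w
  pos : ∀ n, 0 < w n
  zero : w 0 = 1

/-- A regular growth function. -/
structure Psi (Ψ : ℕ → ℝ) (κ : ℝ) : Prop where
  one : ∀ m, 1 ≤ Ψ m
  mono : Monotone Ψ
  step : ∀ m, Ψ (m + 1) ≤ κ * Ψ m

/-- The growth function of a weight. -/
def psi (w : ℕ → ℝ) (m : ℕ) : ℝ := (√(w (N m)))⁻¹

section Space

variable (𝕜 : Type) [RCLike 𝕜]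

/-- The basis `b` spans the Lorentz space `d(w,2)`. -/
def IsLor {𝕜 : Type} [RCLike 𝕜] {X : Type} [NormedAddCommGroup X] [NormedSpace 𝕜 X]
    (w : ℕ → ℝ) (b : SchauderBasis 𝕜 X) : Prop :=
  ∀ (s : Finset ℕ) (a : ℕ → 𝕜),
    IsLUB (Set.range fun π : Equiv.Perm ℕ => ∑ i ∈ s, w (π i) * ‖a i‖ ^ 2)
      (‖∑ i ∈ s, a i • b i‖ ^ 2)

/-- Block EX: the Lorentz space exists. -/
def S_Ex : Prop :=
  ∀ w : ℕ → ℝ, Wt w → ∃ (X : Type) (_ : NormedAddCommGroup X) (_ : NormedSpace 𝕜 X)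
    (_ : CompleteSpace X) (b : SchauderBasis 𝕜 X), IsLor w b

/-- Block SYM: the basis is symmetric. -/
def S_Sym : Prop :=
  ∀ (X : Type) [NormedAddCommGroup X] [NormedSpace 𝕜 X] [CompleteSpace X]
    (w : ℕ → ℝ) (b : SchauderBasis 𝕜 X), IsLor w b →
    ∀ π : Equiv.Perm ℕ, ∃ T : X ≃L[𝕜] X, ∀ n, T (b n) = b (π n)

/-- Elementary norm facts of a Lorentz basis. -/
structure LF {𝕜 : Type} [RCLike 𝕜] {X : Type} [NormedAddCommGroup X] [NormedSpace 𝕜 X]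
    (w : ℕ → ℝ) (b : SchauderBasis 𝕜 X) : Prop where
  lower : ∀ (x : X) (s : Finset ℕ) (σ : ℕ → ℕ), Set.InjOn σ (s : Set ℕ) →
    ∑ i ∈ s, w (σ i) * ‖b.coord i x‖ ^ 2 ≤ ‖x‖ ^ 2
  upper : ∀ (s : Finset ℕ) (a : ℕ → 𝕜) (B : ℝ),
    (∀ π : Equiv.Perm ℕ, ∑ i ∈ s, w (π i) * ‖a i‖ ^ 2 ≤ B) → ‖∑ i ∈ s, a i • b i‖ ^ 2 ≤ B
  unc : ∀ (g : StrongDual 𝕜 X) (x : X) (s : Finset ℕ),
    ∑ i ∈ s, ‖g (b i)‖ * ‖b.coord i x‖ ≤ ‖g‖ * ‖x‖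
  split : ∀ (ι : Type) (s : Finset ι) (en : ι → ℕ) (a : ι → 𝕜) (K : ℕ) (S : ℝ),
    Set.InjOn en (s : Set ι) → (∀ i ∈ s, ‖a i‖ ≤ S) →
    ‖∑ i ∈ s, a i • b (en i)‖ ^ 2 ≤ K * S ^ 2 + w K * ∑ i ∈ s, ‖a i‖ ^ 2
  norm_b : ∀ i, ‖b i‖ = 1
  norm_coord : ∀ i, ‖b.coord i‖ ≤ 1

/-- Block LF. -/
def S_LF : Prop :=
  ∀ (X : Type) [NormedAddCommGroup X] [NormedSpace 𝕜 X] (w : ℕ → ℝ) (b : SchauderBasis 𝕜 X),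
    Wt w → IsLor w b → LF w b

/-- Block NL: the Lorentz space is not isomorphic to an inner product space. -/
def S_NL : Prop :=
  ∀ (X : Type) [NormedAddCommGroup X] [NormedSpace 𝕜 X] (w : ℕ → ℝ) (b : SchauderBasis 𝕜 X),
    Wt w → LF w b → Tendsto w atTop (𝓝 0) →
    ∀ (H : Type) [NormedAddCommGroup H] [InnerProductSpace 𝕜 H], IsEmpty (X ≃L[𝕜] H)

/-- Block F2: levels of the coefficients of a functional. -/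
def S_F2 : Prop :=
  ∀ (X : Type) [NormedAddCommGroup X] [NormedSpace 𝕜 X] (w : ℕ → ℝ) (κ : ℝ)
    (b : SchauderBasis 𝕜 X), Wt w → Psi (psi w) κ → LF w b →
    ∃ C : ℝ, ∀ g : StrongDual 𝕜 X, ‖g‖ ≤ 1 → ∃ m : ℕ → ℕ,
      (∀ (k : ℕ) (s : Finset ℕ), (s.filter fun i => g (b i) ≠ 0 ∧ m i = k).card ≤ N (k + 2)) ∧
      ∀ s : Finset ℕ, ∑ i ∈ s, psi w (m i) ^ 2 * ‖g (b i)‖ ^ 2 ≤ C

/-- Block J: the weighted embedding into `ℓ²`. -/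
def S_J : Prop :=
  ∀ (X : Type) [NormedAddCommGroup X] [NormedSpace 𝕜 X] (w : ℕ → ℝ) (b : SchauderBasis 𝕜 X),
    Wt w → LF w b → ∀ a : ℕ → ℕ,
    (∀ (k : ℕ) (s : Finset ℕ), (s.filter fun i => a i ≤ k).card ≤ N (k + 1)) →
    ∃ J : X →L[𝕜] lp (fun _ : ℕ => 𝕜) 2, Function.Injective J ∧ (∀ x, ‖J x‖ ≤ ‖x‖) ∧
      ∀ x i, b.coord i x = ((psi w (a i + 1) : ℝ) : 𝕜) * J x i

/-- A chain of finite rank orthogonal projections that captures the vectors `u i` quickly. -/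
structure Chain {𝕜 : Type} [RCLike 𝕜] {H : Type} [NormedAddCommGroup H] [InnerProductSpace 𝕜 H]
    (V E₀ : Submodule 𝕜 H) (u : ℕ → H) (d : ℕ) (P : ℕ → H →L[𝕜] H) (j : ℕ → ℕ) : Prop where
  sa : ∀ p x y, inner 𝕜 (P p x) y = inner 𝕜 x (P p y)
  nest : ∀ p q x, p ≤ q → P q (P p x) = P p x
  mem : ∀ p x, P p x ∈ V
  fix : ∀ p, ∀ x ∈ E₀, P p x = x
  fin : ∀ p, FiniteDimensional 𝕜 (LinearMap.range (P p : H →ₗ[𝕜] H))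
  hs : ∀ (p : ℕ) (s : Finset ℕ), ∑ i ∈ s, ‖P p (u i)‖ ^ 2 ≤ d * 16 ^ p
  before : ∀ i p, p < j i → ‖P p (u i)‖ ≤ 4 * (1 / 2) ^ (j i - p)
  after : ∀ i p, j i ≤ p → ‖u i - P p (u i)‖ ≤ (1 / 2) ^ (p - j i)

/-- Block CH: chains exist. -/
def S_Ch : Prop :=
  ∀ (H : Type) [NormedAddCommGroup H] [InnerProductSpace 𝕜 H] (V E₀ : Submodule 𝕜 H)
    (u : ℕ → H) (d : ℕ), 1 ≤ d → E₀ ≤ V → FiniteDimensional 𝕜 E₀ → Module.finrank 𝕜 E₀ ≤ d →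
    (∀ i, ‖u i‖ ≤ 1) → (∀ i (η : ℝ), 0 < η → ∃ v ∈ V, ‖u i - v‖ ≤ η) →
    (∀ v ∈ V, ∀ s : Finset ℕ, ∑ i ∈ s, ‖inner 𝕜 (u i) v‖ ^ 2 ≤ ‖v‖ ^ 2) →
    ∃ (P : ℕ → H →L[𝕜] H) (j : ℕ → ℕ), Chain V E₀ u d P j

end Space

/-- Numerical facts on `G i p = |⟨u i, P p ξ⟩|` and `x i = |⟨u i, ξ⟩|`. -/
structure GF (G : ℕ → ℕ → ℝ) (x : ℕ → ℝ) (j : ℕ → ℕ) : Prop where
  nonneg : ∀ i p, 0 ≤ G i p
  xnonneg : ∀ i, 0 ≤ x i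
  bessel : ∀ (p : ℕ) (s : Finset ℕ), ∑ i ∈ s, G i p ^ 2 ≤ 1
  before : ∀ i p, p < j i → G i p ≤ 4 * (1 / 2) ^ (j i - p)
  after : ∀ i p, j i ≤ p → G i p ≤ x i + (1 / 2) ^ (p - j i)
  diff : ∀ τ : ℕ, ∃ D : ℕ → ℕ → ℝ, (∀ i p, 0 ≤ D i p) ∧
    (∀ i p, G i p ≤ D i p + if τ ≤ p then G i (p - τ) else 0) ∧
    ∀ s I : Finset ℕ, ∑ p ∈ I, ∑ i ∈ s, D i p ^ 2 ≤ τ

/-- Block GF. -/
def S_GF (𝕜 : Type) [RCLike 𝕜] : Prop :=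
  ∀ (H : Type) [NormedAddCommGroup H] [InnerProductSpace 𝕜 H] (V E₀ : Submodule 𝕜 H)
    (u : ℕ → H) (d : ℕ) (P : ℕ → H →L[𝕜] H) (j : ℕ → ℕ), Chain V E₀ u d P j →
    (∀ v ∈ V, ∀ s : Finset ℕ, ∑ i ∈ s, ‖inner 𝕜 (u i) v‖ ^ 2 ≤ ‖v‖ ^ 2) →
    ∀ ξ : H, ‖ξ‖ ≤ 1 →
      GF (fun i p => ‖inner 𝕜 (u i) (P p ξ)‖) (fun i => ‖inner 𝕜 (u i) ξ‖) j ∧
      ∀ i p, ‖inner 𝕜 (u i) (P p ξ)‖ ≤ ‖P p (u i)‖

/-- Block POP: popularity levels of the coordinates. -/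
def S_Pop : Prop :=
  ∀ (lam : ℕ → ℝ) (Λ : ℝ) (A : ℕ → ℕ → Prop) (m : ℕ → ℕ → ℕ), (∀ n, 0 ≤ lam n) →
    (∀ t : Finset ℕ, ∑ n ∈ t, lam n ≤ Λ) →
    (∀ (n k : ℕ) (s : Finset ℕ), (s.filter fun i => A n i ∧ m n i = k).card ≤ N (k + 2)) →
    ∃ a : ℕ → ℕ, (∀ (k : ℕ) (s : Finset ℕ), (s.filter fun i => a i ≤ k).card ≤ N (k + 1)) ∧
      ∀ (i k : ℕ) (t : Finset ℕ), 1 ≤ a i →
        ∑ n ∈ t.filter (fun n => A n i ∧ m n i = k), lam n ≤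
          Λ * N (k + 2) * 2 ^ (k + 1) / N (a i - 1)

/-- Block FAR: coordinates that are rarely used. -/
def S_Far : Prop :=
  ∀ (Ψ : ℕ → ℝ) (κ C₁ : ℝ), Psi Ψ κ → ∃ C : ℝ, 0 ≤ C ∧
    ∀ (t s : Finset ℕ) (lam : ℕ → ℝ) (Λ : ℝ) (c G : ℕ → ℕ → ℝ) (m : ℕ → ℕ → ℕ) (a : ℕ → ℕ)
      (h : ℕ → ℝ) (z : ℕ), (∀ n, 0 ≤ lam n) → ∑ n ∈ t, lam n ≤ Λ →
      (∀ n i, 0 ≤ c n i) → (∀ n i, 0 ≤ G n i) → (∀ n i, G n i ≤ h i) →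
      ∑ i ∈ s, h i ^ 2 ≤ N (z + 4) →
      (∀ n, ∑ i ∈ s, Ψ (m n i) ^ 2 * c n i ^ 2 ≤ C₁) →
      (∀ i k, 1 ≤ a i → ∑ n ∈ t.filter (fun n => c n i ≠ 0 ∧ m n i = k), lam n ≤
        Λ * N (k + 2) * 2 ^ (k + 1) / N (a i - 1)) →
      ∑ n ∈ t, lam n * ∑ i ∈ s.filter (fun i => max (m n i) z + 7 ≤ a i),
        c n i * Ψ (a i + 1) * G n i ≤ C * Λ

/-- Block EST: coordinates that are often used. -/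
def S_Est : Prop :=
  ∀ (Ψ : ℕ → ℝ) (κ C₁ : ℝ), Psi Ψ κ → ∃ C : ℝ, 0 ≤ C ∧
    ∀ (s I : Finset ℕ) (M : ℕ) (η : ℝ) (c x : ℕ → ℝ) (G : ℕ → ℕ → ℝ) (m a j : ℕ → ℕ),
      0 ≤ η → η ≤ 1 → η * ∑ k ∈ range M, 2 ^ k / Ψ k ≤ 2 →
      (∀ p ∈ I, Nat.log 2 p < M) → ∑ p ∈ I, η / Ψ (Nat.log 2 p) ≤ 1 →
      (∀ i, 0 ≤ c i) → (∀ i, c i ≤ 1) →
      (∀ k, (s.filter fun i => c i ≠ 0 ∧ m i = k).card ≤ N (k + 2)) →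
      ∑ i ∈ s, Ψ (m i) ^ 2 * c i ^ 2 ≤ C₁ →
      ∑ i ∈ s, c i * Ψ (a i + 1) * x i ≤ 1 → GF G x j →
      ∑ p ∈ I, η / Ψ (Nat.log 2 p) *
        ∑ i ∈ s.filter (fun i => ¬ max (m i) (Nat.log 2 p) + 7 ≤ a i),
          c i * Ψ (a i + 1) * G i p ≤ C

/-- Block AVG: the growth function of a regular weight and the averaging window. -/
def S_Avg : Prop :=
  (∀ w : ℕ → ℝ, Wt w → (∃ c : ℝ, 0 < c ∧ ∀ n, c * w n ≤ w (n ^ 2)) → ∃ κ, Psi (psi w) κ) ∧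
  (∀ w : ℕ → ℝ, Wt w → ¬ Summable (fun k : ℕ => √(w (2 ^ k))) →
    ¬ Summable (fun k : ℕ => 2 ^ k / psi w k)) ∧
  (∀ (Ψ : ℕ → ℝ), (∀ k, 0 < Ψ k) → ¬ Summable (fun k : ℕ => 2 ^ k / Ψ k) → ∀ m₀ : ℕ,
    ∃ (M : ℕ) (η : ℝ), 0 ≤ η ∧ η ≤ 1 ∧ η * ∑ k ∈ range M, 2 ^ k / Ψ k ≤ 2 ∧
      ∑ p ∈ Ico (2 ^ m₀) (2 ^ M), η / Ψ (Nat.log 2 p) = 1) ∧
  (∀ m₀ p : ℕ, 2 ^ m₀ ≤ p → N m₀ * 16 ^ p ≤ N (Nat.log 2 p + 4))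

/-- Block LIFT: lifting a finite rank operator through an injection. -/
def S_Lift (𝕜 : Type) [RCLike 𝕜] : Prop :=
  ∀ (Y H : Type) [NormedAddCommGroup Y] [NormedSpace 𝕜 Y] [NormedAddCommGroup H]
    [NormedSpace 𝕜 H] (J : Y →L[𝕜] H) (P : H →L[𝕜] H), Function.Injective J →
    FiniteDimensional 𝕜 (LinearMap.range (P : H →ₗ[𝕜] H)) → (∀ x, ∃ y, J y = P x) →
    ∃ Q : Y →L[𝕜] Y, FiniteDimensional 𝕜 (LinearMap.range (Q : Y →ₗ[𝕜] Y)) ∧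
      ∀ y, J (Q y) = P (J y)

/-- The trace estimate that implies the approximation property. -/
def TrB (𝕜 : Type) [RCLike 𝕜] (Y : Type) [NormedAddCommGroup Y] [NormedSpace 𝕜 Y]
    (C : ℝ) : Prop :=
  ∀ (y : ℕ → Y) (f : ℕ → StrongDual 𝕜 Y) (Λ : ℝ) (F : Finset Y), (∀ n, ‖y n‖ ≤ 1) →
    (∀ t : Finset ℕ, ∑ n ∈ t, ‖f n‖ ≤ Λ) →
    ∃ Q : Y →L[𝕜] Y, FiniteDimensional 𝕜 (LinearMap.range (Q : Y →ₗ[𝕜] Y)) ∧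
      (∀ v ∈ F, Q v = v) ∧ ∀ t : Finset ℕ, ∑ n ∈ t, ‖f n (Q (y n))‖ ≤ C * Λ

/-- Block NET: a compact set lies in the absolutely convex hull of a null sequence. -/
def S_Net (𝕜 : Type) [RCLike 𝕜] : Prop :=
  ∀ (Y : Type) [NormedAddCommGroup Y] [NormedSpace 𝕜 Y] (K : Set Y), IsCompact K →
    ∃ (y : ℕ → Y) (B : ℝ), Tendsto y atTop (𝓝 0) ∧ (∀ n, ‖y n‖ ≤ 1) ∧
      ∀ (T : Y →L[𝕜] Y) (δ : ℝ), (∀ n, ‖T (y n)‖ ≤ δ) → ∀ x ∈ K, ‖T x‖ ≤ B * δ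

/-- Block GR: the Grothendieck duality. -/
def S_Gr (𝕜 : Type) [RCLike 𝕜] : Prop :=
  S_Net 𝕜 → ∀ (Y : Type) [NormedAddCommGroup Y] [NormedSpace 𝕜 Y] (C : ℝ),
    TrB 𝕜 Y C → HasAP 𝕜 Y

/-- A Davie system. -/
structure Dav where
  G : ℕ → Type
  I : ℕ → Type
  [fG : ∀ k, Fintype (G k)]
  [fI : ∀ k, Fintype (I k)]
  α : ∀ k, G k → I k → ℝ
  γ : ∀ k, G k → I (k + 1) → ℝ
  θ : ℝ
  θ0 : 0 ≤ θ
  θ1 : θ < 1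
  card : ∀ k, Fintype.card (G k) = 4 * 2 ^ k
  c1 : ∀ k i i', ∑ g, α k g i * α k g i' = if i = i' then 1 else 0
  c2 : ∀ k i i', ∑ g, γ k g i * γ k g i' = if i = i' then 1 else 0
  c3 : ∀ k i i', ∑ g, α k g i * γ k g i' = 0
  r1 : ∀ k g, ∑ i, α k g i ^ 2 = 1 / 4
  r2 : ∀ k g, ∑ i, γ k g i ^ 2 = 1 / 2
  b1 : ∀ k g h, g ≠ h → |∑ i, α k g i * α k h i| ≤ θ ^ k
  b2 : ∀ k g h, g ≠ h → |∑ i, γ k g i * γ k h i| ≤ θ ^ k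
  b3 : ∀ k g h, |∑ i, γ k g i * α (k + 1) h i| ≤ θ ^ k

attribute [instance] Dav.fG Dav.fI

/-- Local data for a product Davie system. -/
structure Loc where
  a : Fin 4 → Fin 2 → Fin 2 → ℝ
  a' : Fin 4 → Fin 2 → Fin 2 → ℝ
  t : Fin 4 → Fin 2 → ℝ
  R : Fin 2 → Fin 2 → ℝ
  θ : ℝ
  θ0 : 0 ≤ θ
  θ1 : θ < 1
  ca : ∀ r u v, ∑ x, a r x u * a r x v = if u = v then 1 else 0
  ca' : ∀ r u v, ∑ x, a' r x u * a' r x v = if u = v then 1 else 0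
  caa' : ∀ r u v, ∑ x, a r x u * a' r x v = R u v
  ra : ∀ r x y, ∑ u, a r x u * a r y u = if x = y then 1 else 0
  ra' : ∀ r x y, ∑ u, a' r x u * a' r y u = if x = y then 1 else 0
  ba : ∀ r r' x y, r ≠ r' → |∑ u, a r x u * a r' y u| ≤ θ
  ba' : ∀ r r' x y, r ≠ r' → |∑ u, a' r x u * a' r' y u| ≤ θ
  baa' : ∀ r r' x y, |∑ u, a' r x u * a r' y u| ≤ θ
  tsq : ∀ r o, t r o ^ 2 = 1
  tsum : ∀ o, ∑ r, t r o = 0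
  torth : ∑ r, t r 0 * t r 1 = 0

/-- Block LOC. -/
def S_Loc : Prop := Nonempty Loc

/-- Block DAV: products of local data form a Davie system. -/
def S_Dav : Prop := Nonempty Loc → Nonempty Dav

section DavVec

variable {𝕜 : Type} [RCLike 𝕜] {X : Type} [NormedAddCommGroup X] [NormedSpace 𝕜 X]

/-- The spanning vectors of the Davie subspace. -/
def Dav.Φ (D : Dav) (𝕜 : Type) [RCLike 𝕜] {X : Type} [NormedAddCommGroup X] [NormedSpace 𝕜 X]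
    (e : ∀ k, D.G k → X) : ∀ k, D.I k → X
  | 0, _ => 0
  | k + 1, i => ∑ h, ((D.γ k h i : ℝ) : 𝕜) • e k h +
      ∑ h, ((D.α (k + 1) h i : ℝ) : 𝕜) • e (k + 1) h

/-- The vectors of the nuclear representation. -/
def Dav.y (D : Dav) (𝕜 : Type) [RCLike 𝕜] {X : Type} [NormedAddCommGroup X] [NormedSpace 𝕜 X]
    (e : ∀ k, D.G k → X) (k : ℕ) (g : D.G k) : X :=
  ∑ i, (((1 / 2) ^ k * D.α k g i : ℝ) : 𝕜) • D.Φ 𝕜 e k i -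
    ∑ i, (((1 / 2) ^ (k + 1) * D.γ k g i : ℝ) : 𝕜) • D.Φ 𝕜 e (k + 1) i

end DavVec

/-- Block DA: algebra of the Davie chain. -/
def S_DA (𝕜 : Type) [RCLike 𝕜] : Prop :=
  ∀ (X : Type) [NormedAddCommGroup X] [NormedSpace 𝕜 X] (D : Dav) (e : ∀ k, D.G k → X)
    (f : ∀ k, D.G k → StrongDual 𝕜 X),
    (∀ k g g', f k g (e k g') = if g = g' then 1 else 0) →
    (∀ k g k' g', k ≠ k' → f k g (e k' g') = 0) →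
    (∀ l h, ∀ᶠ n in atTop, ∑ k ∈ range n, ∑ g, f k g (D.y 𝕜 e l h) • D.y 𝕜 e k g = 0) ∧
    ∀ n, 1 ≤ n → ∑ k ∈ range n, ∑ g, f k g (D.y 𝕜 e k g) = -1

/-- Block DN: norms in the Davie chain. -/
def S_DN (𝕜 : Type) [RCLike 𝕜] : Prop :=
  ∀ (X : Type) [NormedAddCommGroup X] [NormedSpace 𝕜 X] (D : Dav) (e : ∀ k, D.G k → X)
    (w : ℕ → ℝ), (∀ n, 0 ≤ w n) →
    (∀ (k : ℕ) (v : D.G k → ℝ) (K : ℕ) (S : ℝ), (∀ h, |v h| ≤ S) →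
      ‖∑ h, ((v h : ℝ) : 𝕜) • e k h‖ ^ 2 ≤ K * S ^ 2 + w K * ∑ h, v h ^ 2) →
    Summable (fun k : ℕ => √(w (2 ^ k))) → Summable fun k => ∑ g, ‖D.y 𝕜 e k g‖

end Pool.Agent.P.MP_c77070_an.Lor
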