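import Pool.Agent.P.MP_c77070_an.L.Defs

/-! Assembly of the trace estimate and of the main theorem from the blocks. -/

noncomputable section

namespace Pool.Agent.P.MP_c77070_an.Lor

open Filter Topology Finset
open scoped Classical

namespace MAINA

variable {𝕜 : Type} [RCLike 𝕜]

theorem ext_dual {X : Type} [NormedAddCommGroup X] [NormedSpace 𝕜 X] (Y : Submodule 𝕜 X)
    (f : StrongDual 𝕜 Y) :
    ∃ g : StrongDual 𝕜 X, ‖g‖ ≤ 1 ∧ ∀ v : Y, ‖f v‖ = ‖f‖ * ‖g v‖ := by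
  obtain ⟨g, hg, hn⟩ := exists_extension_norm_eq Y f
  by_cases h0 : ‖f‖ = 0
  · refine ⟨0, by simp, fun v => ?_⟩
    have : f = 0 := norm_eq_zero.mp h0
    simp [this]
  · have hp : 0 < ‖f‖ := lt_of_le_of_ne (norm_nonneg _) (Ne.symm h0)
    refine ⟨((‖f‖⁻¹ : ℝ) : 𝕜) • g, ?_, fun v => ?_⟩
    · rw [norm_smul, hn, RCLike.norm_ofReal, abs_of_pos (inv_pos.mpr hp), inv_mul_cancel₀ h0]
    · rw [_root_.smul_apply, norm_smul, hg, RCLike.norm_ofReal,
        abs_of_pos (inv_pos.mpr hp), ← mul_assoc, mul_inv_cancel₀ h0, one_mul]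

theorem fin_sum {Y : Type} [NormedAddCommGroup Y] [NormedSpace 𝕜 Y] (I : Finset ℕ)
    (Q : ℕ → Y →L[𝕜] Y) (c : ℕ → 𝕜)
    (h : ∀ p, FiniteDimensional 𝕜 (LinearMap.range (Q p : Y →ₗ[𝕜] Y))) :
    FiniteDimensional 𝕜
      (LinearMap.range ((∑ p ∈ I, c p • Q p : Y →L[𝕜] Y) : Y →ₗ[𝕜] Y)) := by
  have hle : LinearMap.range ((∑ p ∈ I, c p • Q p : Y →L[𝕜] Y) : Y →ₗ[𝕜] Y) ≤
      I.sup fun p => LinearMap.range (Q p : Y →ₗ[𝕜] Y) := by
    rintro _ ⟨x, rfl⟩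
    simp only [ContinuousLinearMap.coe_coe, _root_.sum_apply, _root_.smul_apply]
    refine Submodule.sum_mem _ fun p hp => Submodule.smul_mem _ _ ?_
    exact Finset.le_sup (f := fun p => LinearMap.range (Q p : Y →ₗ[𝕜] Y)) hp ⟨x, rfl⟩
  exact Submodule.finiteDimensional_of_le hle

theorem bessel_lp (v : lp (fun _ : ℕ => 𝕜) 2) (s : Finset ℕ) :
    ∑ i ∈ s, ‖v i‖ ^ 2 ≤ ‖v‖ ^ 2 := by
  have := lp.sum_rpow_le_norm_rpow (p := 2) (by norm_num) v s
  simpa using this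

/-- The projected unit vectors. -/
theorem exists_u (V : Submodule 𝕜 (lp (fun _ : ℕ => 𝕜) 2)) :
    ∃ u : ℕ → lp (fun _ : ℕ => 𝕜) 2, (∀ i, ‖u i‖ ≤ 1) ∧
      (∀ i (η : ℝ), 0 < η → ∃ v ∈ V, ‖u i - v‖ ≤ η) ∧
      ∀ v ∈ V, ∀ i, inner 𝕜 (u i) v = v i := by
  set U := V.topologicalClosure with hU
  have : CompleteSpace U := V.isClosed_topologicalClosure.completeSpace_coe
  refine ⟨fun i => U.starProjection (lp.single 2 i (1 : 𝕜)), fun i => ?_, fun i η hη => ?_,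
    fun v hv i => ?_⟩
  · refine (U.norm_starProjection_apply_le _).trans ?_
    rw [lp.norm_single (by norm_num)]
    simp
  · have hm : U.starProjection (lp.single 2 i (1 : 𝕜)) ∈ closure (V : Set _) :=
      U.starProjection_apply_mem _
    obtain ⟨v, hv, hd⟩ := Metric.mem_closure_iff.mp hm η hη
    exact ⟨v, hv, by rw [← dist_eq_norm]; exact hd.le⟩
  · have hvU : v ∈ U := V.le_topologicalClosure hv
    rw [U.inner_starProjection_left_eq_right, Submodule.starProjection_eq_self_iff.mpr hvU,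
      lp.inner_single_left]
    simp

theorem lt_N (m : ℕ) : m < N m := by
  unfold N
  exact lt_trans (Nat.lt_two_pow_self) (Nat.pow_lt_pow_right (by norm_num) Nat.lt_two_pow_self)

theorem tendsto_dual {X : Type} [NormedAddCommGroup X] [NormedSpace 𝕜 X] (b : SchauderBasis 𝕜 X)
    (g : StrongDual 𝕜 X) (x : X) :
    Tendsto (fun k => ‖∑ i ∈ range k, b.coord i x * g (b i)‖) atTop (𝓝 ‖g x‖) := by
  have h := ((g.continuous.tendsto x).comp (b.tendsto_proj x)).norm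
  refine h.congr fun k => ?_
  simp [map_sum]

end MAINA

open MAINA

/-- The trace estimate for every subspace of a Lorentz space. -/
theorem trB (𝕜 : Type) [RCLike 𝕜] (hF2 : S_F2 𝕜) (hJ : S_J 𝕜) (hCh : S_Ch 𝕜) (hGF : S_GF 𝕜)
    (hPop : S_Pop) (hFar : S_Far) (hEst : S_Est) (hAvg : S_Avg) (hLift : S_Lift 𝕜)
    (X : Type) [NormedAddCommGroup X] [NormedSpace 𝕜 X] (w : ℕ → ℝ) (κ : ℝ)
    (b : SchauderBasis 𝕜 X) (hw : Wt w) (hψ : Psi (psi w) κ) (hL : LF w b)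
    (hdiv : ¬ Summable (fun k : ℕ => 2 ^ k / psi w k)) :
    ∃ C : ℝ, ∀ Y : Submodule 𝕜 X, TrB 𝕜 Y C := by
  obtain ⟨C₁, hC₁⟩ := hF2 X w κ b hw hψ hL
  obtain ⟨CF, hCF0, hCF⟩ := hFar (psi w) κ C₁ hψ
  obtain ⟨CE, hCE0, hCE⟩ := hEst (psi w) κ C₁ hψ
  refine ⟨CE + CF, fun Y y f Λ F hy hΛ => ?_⟩
  set Ψ := psi w with hΨ
  have hΨpos : ∀ k, 0 < Ψ k := fun k => lt_of_lt_of_le one_pos (hψ.one k)
  choose g hg1 hgf using fun n => ext_dual Y (f n)
  choose m hm1 hm2 using fun n => hC₁ (g n) (hg1 n)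
  obtain ⟨a, ha1, ha2⟩ := hPop (fun n => ‖f n‖) Λ (fun n i => g n (b i) ≠ 0) m
    (fun n => norm_nonneg _) hΛ (fun n k s => by convert hm1 n k s)
  obtain ⟨J, hJi, hJn, hJc⟩ := hJ X w b hw hL a ha1
  set J' : Y →L[𝕜] lp (fun _ : ℕ => 𝕜) 2 := J.comp Y.subtypeL with hJ'
  have hJ'i : Function.Injective J' := hJi.comp Subtype.val_injective
  set V : Submodule 𝕜 (lp (fun _ : ℕ => 𝕜) 2) := LinearMap.range (J' : Y →ₗ[𝕜] _) with hV
  obtain ⟨u, hu1, hu2, hu3⟩ := exists_u V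
  have hB : ∀ v ∈ V, ∀ s : Finset ℕ, ∑ i ∈ s, ‖inner 𝕜 (u i) v‖ ^ 2 ≤ ‖v‖ ^ 2 := by
    intro v hv s
    simp only [hu3 v hv]
    exact bessel_lp v s
  set E₀ : Submodule 𝕜 (lp (fun _ : ℕ => 𝕜) 2) := Submodule.span 𝕜 (F.image J' : Set _) with hE₀
  have hE₀V : E₀ ≤ V := by
    rw [hE₀, Submodule.span_le]
    intro v hv
    obtain ⟨z, -, rfl⟩ := Finset.mem_image.mp (Finset.mem_coe.mp hv)
    exact ⟨z, rfl⟩
  have hE₀f : FiniteDimensional 𝕜 E₀ := FiniteDimensional.span_finset 𝕜 _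
  have hE₀d : Module.finrank 𝕜 E₀ ≤ N F.card :=
    (finrank_span_finset_le_card (F.image J')).trans (Finset.card_image_le.trans (lt_N _).le)
  obtain ⟨P, j, hP⟩ := hCh _ V E₀ u (N F.card) (Nat.succ_le_of_lt (lt_of_le_of_lt (Nat.zero_le _)
    (lt_N _))) hE₀V hE₀f hE₀d hu1 hu2 hB
  obtain ⟨M, η, hη0, hη1, hη2, hη3⟩ := hAvg.2.2.1 Ψ hΨpos hdiv F.card
  set I := Ico (2 ^ F.card) (2 ^ M) with hI
  choose Q hQf hQ using fun p => hLift Y _ J' (P p) hJ'i (hP.fin p) (fun x => hP.mem p x)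
  set δ : ℕ → ℝ := fun p => η / Ψ (Nat.log 2 p) with hδ
  have hδ0 : ∀ p, 0 ≤ δ p := fun p => div_nonneg hη0 (hΨpos _).le
  refine ⟨∑ p ∈ I, ((δ p : ℝ) : 𝕜) • Q p, fin_sum I Q _ hQf, fun v hv => ?_, fun t => ?_⟩
  · have hq : ∀ p, Q p v = v := fun p => hJ'i (by
      rw [hQ, hP.fix p _ (Submodule.subset_span (Finset.mem_coe.mpr
        (Finset.mem_image_of_mem _ hv)))])
    simp only [_root_.sum_apply, _root_.smul_apply, hq]
    rw [← Finset.sum_smul, ← RCLike.ofReal_sum, hη3]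
    simp
  set T : Y →L[𝕜] Y := ∑ p ∈ I, ((δ p : ℝ) : 𝕜) • Q p with hT
  set ξ : ℕ → lp (fun _ : ℕ => 𝕜) 2 := fun n => J' (y n) with hξ
  have hξ1 : ∀ n, ‖ξ n‖ ≤ 1 := fun n => (hJn _).trans (hy n)
  set G : ℕ → ℕ → ℕ → ℝ := fun n i p => ‖inner 𝕜 (u i) (P p (ξ n))‖ with hG
  set c : ℕ → ℕ → ℝ := fun n i => ‖g n (b i)‖ with hc
  have hc0 : ∀ n i, 0 ≤ c n i := fun n i => norm_nonneg _
  have hc1 : ∀ n i, c n i ≤ 1 := fun n i => by
    have := (g n).le_opNorm (b i)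
    rw [hL.norm_b, mul_one] at this
    exact this.trans (hg1 n)
  have hcne : ∀ n i, c n i ≠ 0 ↔ g n (b i) ≠ 0 := fun n i => by simp [hc]
  have hGF' := fun n => hGF _ V E₀ u _ P j hP hB (ξ n) (hξ1 n)
  -- coordinates of `T (y n)`
  have hco : ∀ n i, ‖b.coord i (T (y n) : X) * g n (b i)‖ ≤
      ∑ p ∈ I, δ p * (c n i * Ψ (a i + 1) * G n i p) := by
    intro n i
    have h1 : b.coord i (T (y n) : X) * g n (b i) =
        ∑ p ∈ I, ((δ p : ℝ) : 𝕜) * (g n (b i) * ((Ψ (a i + 1) : ℝ) : 𝕜) *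
          inner 𝕜 (u i) (P p (ξ n))) := by
      simp only [hT, _root_.sum_apply, _root_.smul_apply, Submodule.coe_sum,
        Submodule.coe_smul, map_sum, map_smul, Finset.sum_mul, smul_eq_mul]
      refine Finset.sum_congr rfl fun p _ => ?_
      rw [hu3 _ (hP.mem p _), hJc, ← hQ]
      have : J' (Q p (y n)) = J (Q p (y n) : X) := rfl
      rw [this]
      ring
    rw [h1]
    refine (norm_sum_le _ _).trans (Finset.sum_le_sum fun p _ => le_of_eq ?_)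
    simp only [norm_mul, RCLike.norm_ofReal, abs_of_nonneg (hδ0 p), abs_of_pos (hΨpos _), hc, hG]
  have hkey : ∀ k : ℕ, ∑ n ∈ t, ‖f n‖ *
      ‖∑ i ∈ range k, b.coord i (T (y n) : X) * g n (b i)‖ ≤ (CE + CF) * Λ := by
    intro k
    set s := range k with hs
    have hΛt := hΛ t
    have hΛ0 : 0 ≤ Λ := le_trans (Finset.sum_nonneg fun n _ => norm_nonneg _) hΛt
    have hnear : ∀ n, ∑ p ∈ I, δ p * ∑ i ∈ s.filter
        (fun i => ¬ max (m n i) (Nat.log 2 p) + 7 ≤ a i), c n i * Ψ (a i + 1) * G n i p ≤ CE := by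
      intro n
      refine hCE s I M η (c n) (fun i => ‖inner 𝕜 (u i) (ξ n)‖) (G n) (m n) a j hη0 hη1 hη2
        (fun p hp => ?_) hη3.le (hc0 n) (hc1 n) (fun k => ?_) (hm2 n s) ?_ (hGF' n).1
      · have hp' := Finset.mem_Ico.mp hp
        have : p ≠ 0 := by
          have := Nat.two_pow_pos F.card
          omega
        exact Nat.log_lt_of_lt_pow this hp'.2
      · simp only [hcne]
        convert hm1 n k s
      · refine le_trans (le_of_eq (Finset.sum_congr rfl fun i _ => ?_))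
          ((hL.unc (g n) (y n) s).trans (mul_le_one₀ (hg1 n) (norm_nonneg _) (hy n)))
        rw [hu3 (ξ n) ⟨y n, rfl⟩, hJc, norm_mul, RCLike.norm_ofReal, abs_of_pos (hΨpos _), mul_assoc]
        rfl
    have hfar : ∀ p ∈ I, ∑ n ∈ t, ‖f n‖ * ∑ i ∈ s.filter
        (fun i => max (m n i) (Nat.log 2 p) + 7 ≤ a i), c n i * Ψ (a i + 1) * G n i p ≤
        CF * Λ := by
      intro p hp
      refine hCF t s (fun n => ‖f n‖) Λ c (fun n i => G n i p) m a (fun i => ‖P p (u i)‖)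
        (Nat.log 2 p) (fun n => norm_nonneg _) hΛt hc0 (fun n i => norm_nonneg _)
        (fun n i => (hGF' n).2 i p) ?_ (fun n => hm2 n s) (fun i k hi => ?_)
      · refine (hP.hs p s).trans ?_
        have := hAvg.2.2.2 F.card p (Finset.mem_Ico.mp hp).1
        exact_mod_cast this
      · simp only [hcne]
        convert ha2 i k t hi
    calc ∑ n ∈ t, ‖f n‖ * ‖∑ i ∈ s, b.coord i (T (y n) : X) * g n (b i)‖
        ≤ ∑ n ∈ t, ‖f n‖ * (CE + ∑ p ∈ I, δ p * ∑ i ∈ s.filter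
          (fun i => max (m n i) (Nat.log 2 p) + 7 ≤ a i), c n i * Ψ (a i + 1) * G n i p) := by
          refine Finset.sum_le_sum fun n _ => mul_le_mul_of_nonneg_left ?_ (norm_nonneg _)
          refine (norm_sum_le _ _).trans ((Finset.sum_le_sum fun i _ => hco n i).trans ?_)
          rw [Finset.sum_comm]
          refine le_trans (le_of_eq ?_) (add_le_add_left (hnear n) _)
          rw [← Finset.sum_add_distrib]
          refine Finset.sum_congr rfl fun p _ => ?_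
          rw [← mul_add, ← Finset.mul_sum, add_comm, Finset.sum_filter_add_sum_filter_not]
      _ = CE * ∑ n ∈ t, ‖f n‖ + ∑ p ∈ I, δ p * ∑ n ∈ t, ‖f n‖ * ∑ i ∈ s.filter
          (fun i => max (m n i) (Nat.log 2 p) + 7 ≤ a i), c n i * Ψ (a i + 1) * G n i p := by
          simp only [mul_add, Finset.sum_add_distrib, Finset.mul_sum]
          congr 1
          · exact Finset.sum_congr rfl fun n _ => mul_comm _ _
          · rw [Finset.sum_comm]
            refine Finset.sum_congr rfl fun p _ => Finset.sum_congr rfl fun n _ =>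
              Finset.sum_congr rfl fun i _ => by ring
      _ ≤ CE * Λ + ∑ p ∈ I, δ p * (CF * Λ) :=
          add_le_add (mul_le_mul_of_nonneg_left hΛt hCE0)
            (Finset.sum_le_sum fun p hp => mul_le_mul_of_nonneg_left (hfar p hp) (hδ0 p))
      _ = (CE + CF) * Λ := by
          rw [← Finset.sum_mul, hη3]
          ring
  have hlim : Tendsto (fun k => ∑ n ∈ t, ‖f n‖ *
      ‖∑ i ∈ range k, b.coord i (T (y n) : X) * g n (b i)‖) atTop
      (𝓝 (∑ n ∈ t, ‖f n‖ * ‖g n (T (y n) : X)‖)) :=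
    tendsto_finsetSum _ fun n _ => (tendsto_dual b (g n) _).const_mul _
  refine le_trans (le_of_eq (Finset.sum_congr rfl fun n _ => hgf n _)) (le_of_tendsto' hlim hkey)

/-- The Davie subspace. -/
theorem badSub (𝕜 : Type) [RCLike 𝕜] (hD : Nonempty Dav) (hDA : S_DA 𝕜) (hDN : S_DN 𝕜)
    (X : Type) [NormedAddCommGroup X] [NormedSpace 𝕜 X] (w : ℕ → ℝ)
    (b : SchauderBasis 𝕜 X) (hw : Wt w) (hL : LF w b)
    (hs : Summable (fun k : ℕ => √(w (2 ^ k)))) : BadSub 𝕜 X := by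
  obtain ⟨D⟩ := hD
  obtain ⟨en, hen⟩ := Countable.exists_injective_nat (Σ k, D.G k)
  set e : ∀ k, D.G k → X := fun k g => b (en ⟨k, g⟩) with he
  set f : ∀ k, D.G k → StrongDual 𝕜 X := fun k g => b.coord (en ⟨k, g⟩) with hf
  have h1 : ∀ k g g', f k g (e k g') = if g = g' then 1 else 0 := by
    intro k g g'
    simp only [he, hf, b.ortho, Pi.single_apply, hen.eq_iff, Sigma.mk.inj_iff, heq_eq_eq,
      true_and]
  have h2 : ∀ k g k' g', k ≠ k' → f k g (e k' g') = 0 := by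
    intro k g k' g' hk
    simp only [he, hf, b.ortho, Pi.single_apply, hen.eq_iff, Sigma.mk.inj_iff, hk, false_and,
      if_false]
  obtain ⟨h3, h4⟩ := hDA X D e f h1 h2
  have h5 := hDN X D e w (fun n => (hw.pos n).le) (fun k v K S hv => by
    have := hL.split (D.G k) univ (fun g => en ⟨k, g⟩) (fun g => ((v g : ℝ) : 𝕜)) K S
      (fun g _ g' _ h => by simpa using hen h) (fun g _ => by simpa using hv g)
    simpa using this) hs
  refine crit 𝕜 X D.G (D.y 𝕜 e) f ?_ h3 ?_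
  · refine Summable.of_nonneg_of_le (fun k => Finset.sum_nonneg fun g _ => by positivity)
      (fun k => Finset.sum_le_sum fun g _ => ?_) h5
    exact mul_le_of_le_one_left (norm_nonneg _) (hL.norm_coord _)
  · intro h
    have h' : Tendsto (fun n => ∑ k ∈ range n, ∑ g, f k g (D.y 𝕜 e k g)) atTop (𝓝 (-1)) :=
      tendsto_const_nhds.congr' ((eventually_ge_atTop 1).mono fun n hn => (h4 n hn).symm)
    have := tendsto_nhds_unique h h'
    simp at this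

/-- A weight at the threshold. -/
theorem exists_weight : ∃ w : ℕ → ℝ, (Antitone w ∧ (∀ n, 0 < w n) ∧ w 0 = 1 ∧
    Tendsto w atTop (𝓝 0) ∧ ∃ c : ℝ, 0 < c ∧ ∀ n, c * w n ≤ w (n ^ 2)) ∧
    ¬ Summable (fun k : ℕ => √(w (2 ^ k))) := by
  refine ⟨fun n => 1 / ((Nat.log 2 n : ℝ) + 1) ^ 2, ⟨fun n m h => ?_, fun n => by positivity,
    by simp, ?_, 1 / 4, by norm_num, fun n => ?_⟩, ?_⟩
  · have : (Nat.log 2 n : ℝ) ≤ Nat.log 2 m := by exact_mod_cast Nat.log_mono_right h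
    exact one_div_le_one_div_of_le (by positivity) (by gcongr)
  · have h1 : Tendsto (fun n : ℕ => Nat.log 2 n) atTop atTop := by
      refine tendsto_atTop_atTop.mpr fun k => ⟨2 ^ k, fun n hn => ?_⟩
      exact Nat.le_log_of_pow_le (by norm_num) hn
    have h2 : Tendsto (fun k : ℕ => 1 / ((k : ℝ) + 1) ^ 2) atTop (𝓝 0) := by
      have := (tendsto_one_div_add_atTop_nhds_zero_nat (𝕜 := ℝ)).pow 2
      simpa using this
    exact h2.comp h1
  · have h : Nat.log 2 (n ^ 2) ≤ 2 * Nat.log 2 n + 1 := by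
      rcases Nat.eq_zero_or_pos n with rfl | hn
      · simp
      · have h1 : n < 2 ^ (Nat.log 2 n + 1) := Nat.lt_pow_succ_log_self (by norm_num) n
        have h2 : n ^ 2 < 2 ^ (2 * Nat.log 2 n + 1 + 1) := by
          calc n ^ 2 < (2 ^ (Nat.log 2 n + 1)) ^ 2 := Nat.pow_lt_pow_left h1 (by norm_num)
            _ = _ := by rw [← pow_mul]; congr 1; ring
        exact Nat.lt_succ_iff.mp (Nat.log_lt_of_lt_pow (by positivity) h2)
    have h' : (Nat.log 2 (n ^ 2) : ℝ) + 1 ≤ 2 * ((Nat.log 2 n : ℝ) + 1) := by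
      have : (Nat.log 2 (n ^ 2) : ℝ) ≤ 2 * Nat.log 2 n + 1 := by exact_mod_cast h
      linarith
    calc (1 / 4 : ℝ) * (1 / ((Nat.log 2 n : ℝ) + 1) ^ 2)
        = 1 / (2 * ((Nat.log 2 n : ℝ) + 1)) ^ 2 := by field_simp; norm_num
      _ ≤ _ := one_div_le_one_div_of_le (by positivity) (by gcongr)
  · intro h
    have h1 : (fun k : ℕ => √(1 / ((Nat.log 2 (2 ^ k) : ℝ) + 1) ^ 2)) =
        fun k : ℕ => 1 / ((k + 1 : ℕ) : ℝ) := by
      funext k
      rw [Nat.log_pow (by norm_num), ← one_div_pow, Real.sqrt_sq (by positivity)]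
      push_cast
      rfl
    rw [h1] at h
    exact Real.not_summable_one_div_natCast ((summable_nat_add_iff 1).mp h)

/-- The main theorem from the blocks. -/
theorem main (𝕜 : Type) [RCLike 𝕜] (hEx : S_Ex 𝕜) (hSym : S_Sym 𝕜) (hLF : S_LF 𝕜)
    (hNL : S_NL 𝕜) (hF2 : S_F2 𝕜) (hJ : S_J 𝕜) (hCh : S_Ch 𝕜) (hGF : S_GF 𝕜)
    (hPop : S_Pop) (hFar : S_Far) (hEst : S_Est) (hAvg : S_Avg) (hLift : S_Lift 𝕜)
    (hNet : S_Net 𝕜) (hGr : S_Gr 𝕜) (hLoc : S_Loc) (hDav : S_Dav) (hDA : S_DA 𝕜) (hDN : S_DN 𝕜)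
    (w : ℕ → ℝ) (hw : Wt w) (hlim : Tendsto w atTop (𝓝 0))
    (hreg : ∃ c : ℝ, 0 < c ∧ ∀ n, c * w n ≤ w (n ^ 2)) :
    ∃ (X : Type) (_ : NormedAddCommGroup X) (_ : NormedSpace 𝕜 X) (_ : CompleteSpace X)
      (b : SchauderBasis 𝕜 X), IsLor w b ∧
      (∀ π : Equiv.Perm ℕ, ∃ T : X ≃L[𝕜] X, ∀ n, T (b n) = b (π n)) ∧
      IsEmpty (X ≃L[𝕜] lp (fun _ : ℕ => 𝕜) 2) ∧
      ((∀ Y : Submodule 𝕜 X, IsClosed (Y : Set X) → HasAP 𝕜 Y) ↔
        ¬ Summable (fun k : ℕ => √(w (2 ^ k)))) := by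
  obtain ⟨X, i1, i2, i3, b, hb⟩ := hEx w hw
  have hL := hLF X w b hw hb
  refine ⟨X, i1, i2, i3, b, hb, hSym X w b hb, hNL X w b hw hL hlim _, fun h hs => ?_,
    fun hs Y _ => ?_⟩
  · obtain ⟨Y, hY, hA⟩ := badSub 𝕜 (hDav hLoc) hDA hDN X w b hw hL hs
    exact hA (h Y hY)
  · obtain ⟨κ, hκ⟩ := hAvg.1 w hw hreg
    obtain ⟨C, hC⟩ := trB 𝕜 hF2 hJ hCh hGF hPop hFar hEst hAvg hLift X w κ b hw hκ hL
      (hAvg.2.1 w hw hs)
    exact hGr hNet Y C (hC Y)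

end Pool.Agent.P.MP_c77070_an.Lor
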